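import Pool.Agent.V11232.MS.Main

/-!
Sets missing a star centre, and the total sums.
-/

namespace Pool.Agent.V11232.MS

open SimpleGraph Finset

variable {n p q k : ℕ}

open Classical in
/-- Connected sets missing the centre of bundle `s`. -/
noncomputable def BadSets (n p k : ℕ) (s : Bool) : Finset (Finset (Vx n p k)) :=
  Finset.univ.filter (fun S => (ind (S : Set (Vx n p k))).Connected ∧
    ∀ i : Fin (n + 2 * p + 1), i.val = lpos n s → (Sum.inl i : Vx n p k) ∉ S)

theorem bad_card (n p k : ℕ) (s : Bool) :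
    (BadSets n p k s).card ≤ k + 2 ^ (n + 2 * p + 1) * (2 ^ k * 4) := by
  classical
  have hsub : BadSets n p k s ⊆
      (Finset.univ.image (fun t : Fin k => ({Sum.inr (Sum.inl (s, t))} : Finset (Vx n p k)))) ∪
      (Finset.univ.image (fun x : Finset (Fin (n + 2 * p + 1)) × (Finset (Fin k) × Finset Bool) =>
        (mk x.1 (x.2.1.image (fun t => ((!s), t))) x.2.2 : Finset (Vx n p k)))) := by
    intro S hS
    rw [BadSets, Finset.mem_filter] at hS
    obtain ⟨-, hconn, hno⟩ := hS
    rw [Finset.mem_union]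
    by_cases hex : ∃ t : Fin k, (Sum.inr (Sum.inl (s, t)) : Vx n p k) ∈ S
    · left
      obtain ⟨t, ht⟩ := hex
      rw [Finset.mem_image]
      refine ⟨t, Finset.mem_univ _, ?_⟩
      symm
      rw [Finset.eq_singleton_iff_unique_mem]
      refine ⟨ht, ?_⟩
      intro v hv
      exact leaf_alone hconn (x := (s, t)) (fun i hi hi' => hno i hi hi') ht hv
    · right
      obtain ⟨A, X, Z, rfl⟩ := exists_mk S
      rw [Finset.mem_image]
      refine ⟨(A, (X.image Prod.snd, Z)), Finset.mem_univ _, ?_⟩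
      simp only
      congr 1
      ext ⟨b, t⟩
      simp only [Finset.mem_image, Prod.mk.injEq, Prod.exists, exists_eq_right]
      have hb : ∀ b t, (b, t) ∈ X → b = !s := by
        intro b t hbt
        by_contra hne
        apply hex
        refine ⟨t, ?_⟩
        rw [mem_mk_leaf]
        have : b = s := by
          cases b <;> cases s <;> simp_all
        rwa [← this]
      constructor
      · rintro ⟨t', ⟨b', hb'⟩, h1, rfl⟩
        rw [← h1, ← hb b' t' hb']
        exact hb'
      · intro h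
        exact ⟨t, ⟨b, h⟩, (hb b t h).symm, rfl⟩
  refine (Finset.card_le_card hsub).trans ((Finset.card_union_le _ _).trans ?_)
  refine Nat.add_le_add ?_ ?_
  · refine Finset.card_image_le.trans ?_
    simp
  · refine Finset.card_image_le.trans ?_
    simp only [Finset.card_univ, Fintype.card_prod, Fintype.card_finset, Fintype.card_fin,
      Fintype.card_bool]
    norm_num

/-- Sum over the sets containing both centres. -/
theorem sum_good (a : Finset (Vx n (q + 1) k) → ℤ) (m : ℤ)
    (ha : ∀ S : Finset (Vx n (q + 1) k),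
      ¬ (ind (S : Set (Vx n (q + 1) k))).Connected → a S = 0)
    (c2 : Fin (n + 2 * (q + 1) + 1)) (hc2 : c2.val = n + 1) :
    ∑ A : Finset (Fin (n + 2 * (q + 1) + 1)), (if (0 ∈ A ∧ c2 ∈ A) then Phi a m A else 0) =
      Phi a m Finset.univ + ∑ x ∈ Gaps n q, Phi a m (Ac n (q + 1) x.1 x.2) := by
  classical
  rw [← Finset.sum_filter]
  set AA : Finset (Finset (Fin (n + 2 * (q + 1) + 1))) :=
    insert Finset.univ ((Gaps n q).image (fun x => Ac n (q + 1) x.1 x.2)) with hAA
  have hsub : AA ⊆ Finset.univ.filter (fun A => 0 ∈ A ∧ c2 ∈ A) := by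
    intro A hA
    rw [Finset.mem_filter]
    refine ⟨Finset.mem_univ _, ?_⟩
    rw [hAA, Finset.mem_insert, Finset.mem_image] at hA
    rcases hA with rfl | ⟨x, hx, rfl⟩
    · exact ⟨Finset.mem_univ _, Finset.mem_univ _⟩
    · rw [mem_Gaps] at hx
      rw [mem_Ac, mem_Ac]
      simp only [Fin.val_zero]
      omega
  rw [← Finset.sum_subset hsub]
  · rw [hAA, Finset.sum_insert, Finset.sum_image]
    · intro x hx y hy hxy
      have hx' : x ∈ Gaps n q := hx
      have hy' : y ∈ Gaps n q := hy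
      rw [mem_Gaps] at hx' hy'
      have := Ac_inj hx'.2.1 (by omega) hy'.2.1 (by omega) hxy
      exact Prod.ext this.1 this.2
    · rw [Finset.mem_image]
      rintro ⟨x, hx, hx'⟩
      rw [mem_Gaps] at hx
      have : (⟨x.1, by omega⟩ : Fin (n + 2 * (q + 1) + 1)) ∈ Ac n (q + 1) x.1 x.2 := by
        rw [hx']; exact Finset.mem_univ _
      rw [mem_Ac] at this
      simp only at this
      omega
  · intro A hA hA'
    rw [Finset.mem_filter] at hA
    rw [Phi]
    apply Finset.sum_eq_zero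
    intro X _
    apply Finset.sum_eq_zero
    intro Z _
    rw [ha, zero_mul]
    intro hconn
    apply hA'
    rw [hAA, Finset.mem_insert, Finset.mem_image]
    by_cases hall : A = Finset.univ
    · left; exact hall
    · right
      obtain ⟨g, h, h1, h2, h3, hgood⟩ := shape hconn
        (by rw [Finset.mem_coe, mem_mk_cyc]; exact hA.2.1)
        (by
          intro i hi
          rw [Finset.mem_coe, mem_mk_cyc]
          have : i = c2 := Fin.ext (hi.trans hc2.symm)
          rw [this]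
          exact hA.2.2)
        (by
          by_contra hcon
          push Not at hcon
          apply hall
          ext i
          simp only [Finset.mem_univ, iff_true]
          have := hcon i
          rwa [Finset.mem_coe, mem_mk_cyc] at this)
      refine ⟨(g, h), ?_, ?_⟩
      · rw [mem_Gaps]
        have := hgood.one_le
        simp only
        omega
      · ext i
        rw [mem_Ac]
        have := hgood.cyc i
        rw [Finset.mem_coe, mem_mk_cyc] at this
        exact this.symm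

/-- The two centres. -/
abbrev Both (c2 : Fin (n + 2 * (q + 1) + 1)) (S : Finset (Vx n (q + 1) k)) : Prop :=
  (Sum.inl (0 : Fin (n + 2 * (q + 1) + 1)) : Vx n (q + 1) k) ∈ S ∧
    (Sum.inl c2 : Vx n (q + 1) k) ∈ S

theorem sum_split (a : Finset (Vx n (q + 1) k) → ℤ) (m : ℤ)
    (ha : ∀ S : Finset (Vx n (q + 1) k),
      ¬ (ind (S : Set (Vx n (q + 1) k))).Connected → a S = 0)
    (c2 : Fin (n + 2 * (q + 1) + 1)) (hc2 : c2.val = n + 1) :
    ∑ S : Finset (Vx n (q + 1) k), a S * ((S.card : ℤ) - m) =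
      (Phi a m Finset.univ + ∑ x ∈ Gaps n q, Phi a m (Ac n (q + 1) x.1 x.2)) +
      ∑ S : Finset (Vx n (q + 1) k), (if Both c2 S then 0 else a S * ((S.card : ℤ) - m)) := by
  rw [← sum_good a m ha c2 hc2]
  have h1 : ∑ S : Finset (Vx n (q + 1) k), (if Both c2 S then a S * ((S.card : ℤ) - m) else 0) =
      ∑ A : Finset (Fin (n + 2 * (q + 1) + 1)), (if (0 ∈ A ∧ c2 ∈ A) then Phi a m A else 0) := by
    rw [sum_all]
    refine Finset.sum_congr rfl (fun A _ => ?_)
    by_cases hA : 0 ∈ A ∧ c2 ∈ A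
    · rw [if_pos hA, Phi]
      refine Finset.sum_congr rfl (fun X _ => Finset.sum_congr rfl (fun Z _ => ?_))
      rw [if_pos]
      exact ⟨mem_mk_cyc.2 hA.1, mem_mk_cyc.2 hA.2⟩
    · rw [if_neg hA]
      apply Finset.sum_eq_zero
      intro X _
      apply Finset.sum_eq_zero
      intro Z _
      rw [if_neg]
      rintro ⟨h1, h2⟩
      exact hA ⟨mem_mk_cyc.1 h1, mem_mk_cyc.1 h2⟩
  rw [← h1, ← Finset.sum_add_distrib]
  refine Finset.sum_congr rfl (fun S _ => ?_)
  split_ifs <;> ring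

theorem bad_mem {c2 : Fin (n + 2 * (q + 1) + 1)} (hc2 : c2.val = n + 1)
    {S : Finset (Vx n (q + 1) k)} (hS : ¬ Both c2 S)
    (hconn : (ind (S : Set (Vx n (q + 1) k))).Connected) :
    S ∈ BadSets n (q + 1) k false ∪ BadSets n (q + 1) k true := by
  classical
  rw [Finset.mem_union, BadSets, BadSets, Finset.mem_filter, Finset.mem_filter]
  by_cases h0 : (Sum.inl (0 : Fin (n + 2 * (q + 1) + 1)) : Vx n (q + 1) k) ∈ S
  · right
    refine ⟨Finset.mem_univ _, hconn, ?_⟩
    intro i hi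
    have : i = c2 := Fin.ext (by rw [hi, hc2]; simp [lpos])
    rw [this]
    intro h
    exact hS ⟨h0, h⟩
  · left
    refine ⟨Finset.mem_univ _, hconn, ?_⟩
    intro i hi
    have : i = 0 := Fin.ext (by rw [hi]; simp [lpos])
    rw [this]
    exact h0

/-- The number of bad sets. -/
def EE (n q k : ℕ) : ℕ := 2 * (k + 2 ^ (n + 2 * (q + 1) + 1) * (2 ^ k * 4))

theorem bad_union_card (n q k : ℕ) :
    (BadSets n (q + 1) k false ∪ BadSets n (q + 1) k true).card ≤ EE n q k := by
  classical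
  refine (Finset.card_union_le _ _).trans ?_
  have h1 := bad_card n (q + 1) k false
  have h2 := bad_card n (q + 1) k true
  rw [EE]
  omega

theorem bad_U (m : ℤ) (hm : 0 ≤ m) (c2 : Fin (n + 2 * (q + 1) + 1)) (hc2 : c2.val = n + 1) :
    - (m * (EE n q k : ℤ)) ≤
      ∑ S : Finset (Vx n (q + 1) k), (if Both c2 S then 0 else aU S * ((S.card : ℤ) - m)) := by
  classical
  have h1 : ∀ S : Finset (Vx n (q + 1) k),
      (if S ∈ BadSets n (q + 1) k false ∪ BadSets n (q + 1) k true then -m else 0) ≤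
      (if Both c2 S then 0 else aU S * ((S.card : ℤ) - m)) := by
    intro S
    by_cases hB : Both c2 S
    · rw [if_pos hB]
      split_ifs <;> linarith
    · rw [if_neg hB]
      by_cases hconn : (ind (S : Set (Vx n (q + 1) k))).Connected
      · rw [if_pos (bad_mem hc2 hB hconn), aU, if_pos hconn]
        have : (0 : ℤ) ≤ (S.card : ℤ) := by positivity
        linarith
      · rw [aU, if_neg hconn]
        split_ifs <;> linarith
  refine le_trans ?_ (Finset.sum_le_sum (fun S _ => h1 S))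
  rw [← Finset.sum_filter, Finset.sum_const]
  have h2 : (Finset.univ.filter (fun S : Finset (Vx n (q + 1) k) =>
      S ∈ BadSets n (q + 1) k false ∪ BadSets n (q + 1) k true)).card ≤ EE n q k := by
    refine le_trans (Finset.card_le_card ?_) (bad_union_card n q k)
    intro S hS
    rw [Finset.mem_filter] at hS
    exact hS.2
  rw [nsmul_eq_mul]
  have h3 : (((Finset.univ.filter (fun S : Finset (Vx n (q + 1) k) =>
      S ∈ BadSets n (q + 1) k false ∪ BadSets n (q + 1) k true)).card : ℕ) : ℤ) ≤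
      (EE n q k : ℤ) := by exact_mod_cast h2
  nlinarith

theorem bad_W (m : ℤ) (hm : 0 ≤ m) (c2 : Fin (n + 2 * (q + 1) + 1)) (hc2 : c2.val = n + 1) :
    ∑ S : Finset (Vx n (q + 1) k), (if Both c2 S then 0 else aW S * ((S.card : ℤ) - m)) ≤
      8 * ((n + 2 * q + 3) + 2 * k + 2) * (EE n q k : ℤ) := by
  classical
  set B : ℤ := 8 * ((n + 2 * q + 3) + 2 * k + 2) with hB
  have hBnn : 0 ≤ B := by rw [hB]; positivity
  have hlt : n + 1 + (q + 1) < n + 2 * (q + 1) + 1 := by omega
  have h1 : ∀ S : Finset (Vx n (q + 1) k),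
      (if Both c2 S then 0 else aW S * ((S.card : ℤ) - m)) ≤
      (if S ∈ BadSets n (q + 1) k false ∪ BadSets n (q + 1) k true then B else 0) := by
    intro S
    by_cases hBo : Both c2 S
    · rw [if_pos hBo]
      split_ifs <;> linarith
    · rw [if_neg hBo]
      by_cases hconn : (ind (S : Set (Vx n (q + 1) k))).Connected
      · rw [if_pos (bad_mem hc2 hBo hconn)]
        have hex : ∃ g : Fin (n + 2 * (q + 1) + 1), (Sum.inl g : Vx n (q + 1) k) ∉
            (S : Set (Vx n (q + 1) k)) := by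
          by_contra hcon
          push Not at hcon
          exact hBo ⟨hcon 0, hcon c2⟩
        obtain ⟨g, hg⟩ := hex
        have e1 : aW S ≤ 8 := by
          have := treesOn_le_eight (w := ⟨n + 1 + (q + 1), hlt⟩) rfl hg
          rw [aW]
          exact_mod_cast this
        have e0 := aW_nonneg S
        have e2 := card_le_all S
        have e3 : (S.card : ℤ) - m ≤ (n + 2 * q + 3) + 2 * k + 2 := by linarith
        calc aW S * ((S.card : ℤ) - m) ≤ aW S * ((n + 2 * q + 3) + 2 * k + 2) :=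
              mul_le_mul_of_nonneg_left e3 e0
          _ ≤ 8 * ((n + 2 * q + 3) + 2 * k + 2) :=
              mul_le_mul_of_nonneg_right e1 (by positivity)
      · rw [aW_zero hconn, zero_mul]
        split_ifs <;> linarith
  refine (Finset.sum_le_sum (fun S _ => h1 S)).trans ?_
  rw [← Finset.sum_filter, Finset.sum_const]
  have h2 : (Finset.univ.filter (fun S : Finset (Vx n (q + 1) k) =>
      S ∈ BadSets n (q + 1) k false ∪ BadSets n (q + 1) k true)).card ≤ EE n q k := by
    refine le_trans (Finset.card_le_card ?_) (bad_union_card n q k)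
    intro S hS
    rw [Finset.mem_filter] at hS
    exact hS.2
  rw [nsmul_eq_mul]
  have h3 : (((Finset.univ.filter (fun S : Finset (Vx n (q + 1) k) =>
      S ∈ BadSets n (q + 1) k false ∪ BadSets n (q + 1) k true)).card : ℕ) : ℤ) ≤
      (EE n q k : ℤ) := by exact_mod_cast h2
  nlinarith

/-- Lower bound for the unweighted sum. -/
theorem total_U (m d : ℤ) (hm : 0 ≤ m) (hd : d = (n + 2 * q + 3) + k - m) :
    4 ^ k * (6 * (4 * d + 4) + (3 * n * (n + 1) * (4 * d + 4) + n * (n + 1) * (n + 2) * (-4) +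
      2 * (3 * q * (q + 1) * (4 * d + 4) + q * (q + 1) * (q + 2) * (-4)) +
      6 * ((q + 1) ^ 2 * d + (q + 1) ^ 3 * (-1)))) - 6 * (m * (EE n q k : ℤ)) ≤
    6 * ∑ S : Finset (Vx n (q + 1) k), aU S * ((S.card : ℤ) - m) := by
  have hlt : n + 1 < n + 2 * (q + 1) + 1 := by omega
  rw [sum_split aU m (fun S hS => by rw [aU, if_neg hS]) ⟨n + 1, hlt⟩ rfl]
  have hb := bad_U (k := k) m hm (⟨n + 1, hlt⟩ : Fin (n + 2 * (q + 1) + 1)) rfl
  rw [Phi_U_univ m d hd]
  have hs : ∑ x ∈ Gaps n q, Phi (aU (n := n) (p := q + 1) (k := k)) m (Ac n (q + 1) x.1 x.2) =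
      4 ^ k * ∑ x ∈ Gaps n q, (if n + 2 + q < x.1 ∨ x.2 < n + 2 + q then
        ((4 * d + 4) + (-4) * ((x.2 : ℤ) - (x.1 : ℤ) + 1)) else
        (d + (-1) * ((x.2 : ℤ) - (x.1 : ℤ) + 1))) := by
    rw [Finset.mul_sum]
    exact Finset.sum_congr rfl (fun x hx => Phi_U hx m d hd)
  rw [hs]
  have hG := sum_Gaps n q (4 * d + 4) (-4) d (-1)
  set G := ∑ x ∈ Gaps n q, (if n + 2 + q < x.1 ∨ x.2 < n + 2 + q then
        ((4 * d + 4) + (-4) * ((x.2 : ℤ) - (x.1 : ℤ) + 1)) else
        (d + (-1) * ((x.2 : ℤ) - (x.1 : ℤ) + 1))) with hGdef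
  rw [← hG]
  have : (4 : ℤ) ^ k * (6 * (4 * d + 4) + 6 * G) = 6 * (4 ^ k * (4 * d + 4) + 4 ^ k * G) := by ring
  rw [this]
  linarith

/-- Upper bound for the weighted sum. -/
theorem total_W (m d : ℤ) (hm : 0 ≤ m) (hd : d = (n + 2 * q + 3) + k - m) :
    6 * ∑ S : Finset (Vx n (q + 1) k), aW S * ((S.card : ℤ) - m) ≤
    4 ^ k * (6 * (4 * (8 * (n + 2 * q + 4) * ((n + 2 * q + 3) + 2 * k + 2))) +
      (3 * n * (n + 1) * (6 * d + 8) + n * (n + 1) * (n + 2) * (-6) +
      2 * (3 * q * (q + 1) * (6 * d + 8) + q * (q + 1) * (q + 2) * (-6)) +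
      6 * ((q + 1) ^ 2 * d + (q + 1) ^ 3 * (-1)))) +
      6 * (8 * ((n + 2 * q + 3) + 2 * k + 2) * (EE n q k : ℤ)) := by
  have hlt : n + 1 < n + 2 * (q + 1) + 1 := by omega
  rw [sum_split aW m (fun S hS => aW_zero hS) ⟨n + 1, hlt⟩ rfl]
  have hb := bad_W (k := k) m hm (⟨n + 1, hlt⟩ : Fin (n + 2 * (q + 1) + 1)) rfl
  have hu := Phi_W_univ (n := n) (q := q) (k := k) m hm
  have hs : ∑ x ∈ Gaps n q, Phi (aW (n := n) (p := q + 1) (k := k)) m (Ac n (q + 1) x.1 x.2) =
      4 ^ k * ∑ x ∈ Gaps n q, (if n + 2 + q < x.1 ∨ x.2 < n + 2 + q then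
        ((6 * d + 8) + (-6) * ((x.2 : ℤ) - (x.1 : ℤ) + 1)) else
        (d + (-1) * ((x.2 : ℤ) - (x.1 : ℤ) + 1))) := by
    rw [Finset.mul_sum]
    exact Finset.sum_congr rfl (fun x hx => Phi_W hx m d hd)
  rw [hs]
  have hG := sum_Gaps n q (6 * d + 8) (-6) d (-1)
  set G := ∑ x ∈ Gaps n q, (if n + 2 + q < x.1 ∨ x.2 < n + 2 + q then
        ((6 * d + 8) + (-6) * ((x.2 : ℤ) - (x.1 : ℤ) + 1)) else
        (d + (-1) * ((x.2 : ℤ) - (x.1 : ℤ) + 1))) with hGdef
  rw [← hG]
  have : (4 : ℤ) ^ k * (6 * (4 * (8 * (n + 2 * q + 4) * ((n + 2 * q + 3) + 2 * k + 2))) + 6 * G) =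
    6 * (4 ^ k * (4 * (8 * (n + 2 * q + 4) * ((n + 2 * q + 3) + 2 * k + 2))) + 4 ^ k * G) := by ring
  rw [this]
  linarith

end Pool.Agent.V11232.MS
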