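import Mathlib

/-!
Arithmetic of sums over gaps.
-/

namespace Pool.Agent.V11232.MS

/-- Pairs `(g,h)` with `s ≤ g ≤ h < s + m`. -/
def T (s m : ℕ) : Finset (ℕ × ℕ) :=
  ((Finset.Ico s (s + m)) ×ˢ (Finset.Ico s (s + m))).filter (fun x => x.1 ≤ x.2)

theorem mem_T {s m : ℕ} {x : ℕ × ℕ} : x ∈ T s m ↔ s ≤ x.1 ∧ x.1 ≤ x.2 ∧ x.2 < s + m := by
  simp only [T, Finset.mem_filter, Finset.mem_product, Finset.mem_Ico]
  omega

theorem sum_col (s m : ℕ) (α β : ℤ) :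
    2 * ∑ g ∈ Finset.Ico s (s + m + 1), (α + β * (((s + m : ℕ) : ℤ) - (g : ℤ) + 1)) =
      2 * (m + 1) * α + (m + 1) * (m + 2) * β := by
  rw [Finset.sum_Ico_eq_sum_range]
  have : s + m + 1 - s = m + 1 := by omega
  rw [this]
  have key : ∀ M : ℕ, ∀ c : ℤ, 2 * ∑ i ∈ Finset.range M, (α + β * (c - ((s + i : ℕ) : ℤ) + 1)) =
      2 * M * (α + β * (c - s + 1)) - β * (M * (M - 1)) := by
    intro M c
    induction M with
    | zero => simp
    | succ M ih =>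
      rw [Finset.sum_range_succ, mul_add, ih]
      push_cast
      ring
  rw [key]
  push_cast
  ring

theorem sum_T (s m : ℕ) (α β : ℤ) :
    6 * ∑ x ∈ T s m, (α + β * ((x.2 : ℤ) - (x.1 : ℤ) + 1)) =
      3 * m * (m + 1) * α + m * (m + 1) * (m + 2) * β := by
  induction m with
  | zero =>
    have : T s 0 = ∅ := by
      ext x
      rw [mem_T]
      simp only [Finset.notMem_empty, iff_false]
      omega
    rw [this]
    simp
  | succ m ih =>
    have hun : T s (m + 1) = T s m ∪ (Finset.Ico s (s + m + 1)).image (fun g => (g, s + m)) := by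
      ext x
      rw [Finset.mem_union, mem_T, mem_T, Finset.mem_image]
      constructor
      · rintro ⟨h1, h2, h3⟩
        by_cases h4 : x.2 < s + m
        · left; exact ⟨h1, h2, h4⟩
        · right
          refine ⟨x.1, ?_, ?_⟩
          · rw [Finset.mem_Ico]; omega
          · apply Prod.ext
            · rfl
            · simp only; omega
      · rintro (⟨h1, h2, h3⟩ | ⟨g, hg, rfl⟩)
        · omega
        · rw [Finset.mem_Ico] at hg
          simp only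
          omega
    have hdis : Disjoint (T s m) ((Finset.Ico s (s + m + 1)).image (fun g => (g, s + m))) := by
      rw [Finset.disjoint_left]
      intro x hx hx'
      rw [mem_T] at hx
      rw [Finset.mem_image] at hx'
      obtain ⟨g, _, rfl⟩ := hx'
      simp only at hx
      omega
    rw [hun, Finset.sum_union hdis, Finset.sum_image (by
      intro a _ b _ hab
      exact (Prod.mk.inj hab).1), mul_add, ih]
    have hc := sum_col s m α β
    simp only at hc ⊢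
    have : (6 : ℤ) * ∑ g ∈ Finset.Ico s (s + m + 1), (α + β * (((s + m : ℕ) : ℤ) - (g : ℤ) + 1)) =
        3 * (2 * (m + 1) * α + (m + 1) * (m + 2) * β) := by
      rw [← hc]; ring
    rw [this]
    push_cast
    ring

/-- Gaps containing the middle vertex. -/
def Rm (n q : ℕ) : Finset (ℕ × ℕ) :=
  (Finset.Ico (n + 2) (n + q + 3)) ×ˢ (Finset.Ico (n + q + 2) (n + 2 * q + 3))

theorem mem_Rm {n q : ℕ} {x : ℕ × ℕ} : x ∈ Rm n q ↔
    (n + 2 ≤ x.1 ∧ x.1 < n + q + 3) ∧ (n + q + 2 ≤ x.2 ∧ x.2 < n + 2 * q + 3) := by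
  simp only [Rm, Finset.mem_product, Finset.mem_Ico]

theorem sum_Ico_id (a m : ℕ) :
    2 * ∑ i ∈ Finset.Ico a (a + m), (i : ℤ) = 2 * m * a + m * (m - 1) := by
  rw [Finset.sum_Ico_eq_sum_range]
  have : a + m - a = m := by omega
  rw [this]
  induction m with
  | zero => simp
  | succ m ih =>
    rw [Finset.sum_range_succ, mul_add, ih (by omega)]
    push_cast
    ring

theorem sum_Rm (n q : ℕ) (α β : ℤ) :
    ∑ x ∈ Rm n q, (α + β * ((x.2 : ℤ) - (x.1 : ℤ) + 1)) =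
      (q + 1) ^ 2 * α + (q + 1) ^ 3 * β := by
  rw [Rm, Finset.sum_product]
  have e1 : n + q + 3 = (n + 2) + (q + 1) := by ring
  have e2 : n + 2 * q + 3 = (n + q + 2) + (q + 1) := by ring
  rw [e1, e2]
  have h1 := sum_Ico_id (n + 2) (q + 1)
  have h2 := sum_Ico_id (n + q + 2) (q + 1)
  have inner : ∀ g : ℕ, ∑ h ∈ Finset.Ico (n + q + 2) (n + q + 2 + (q + 1)),
      (α + β * ((h : ℤ) - (g : ℤ) + 1)) =
      (q + 1) * (α + β * (1 - g)) +
        β * ∑ h ∈ Finset.Ico (n + q + 2) (n + q + 2 + (q + 1)), (h : ℤ) := by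
    intro g
    have : ∀ h : ℕ, α + β * ((h : ℤ) - (g : ℤ) + 1) = (α + β * (1 - g)) + β * h := by
      intro h; ring
    rw [Finset.sum_congr rfl (fun h _ => this h), Finset.sum_add_distrib, Finset.sum_const,
      ← Finset.mul_sum, Nat.card_Ico]
    have : n + q + 2 + (q + 1) - (n + q + 2) = q + 1 := by omega
    rw [this, nsmul_eq_mul]
    push_cast
    ring
  simp only at inner ⊢
  rw [Finset.sum_congr rfl (fun g _ => inner g)]
  set A := ∑ h ∈ Finset.Ico (n + q + 2) (n + q + 2 + (q + 1)), (h : ℤ) with hA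
  have outer : ∑ g ∈ Finset.Ico (n + 2) (n + 2 + (q + 1)),
      ((q + 1 : ℤ) * (α + β * (1 - (g : ℤ))) + β * A) =
      (q + 1) * ((q + 1) * (α + β) + β * A) -
        (q + 1) * β * ∑ g ∈ Finset.Ico (n + 2) (n + 2 + (q + 1)), (g : ℤ) := by
    have : ∀ g : ℕ, (q + 1 : ℤ) * (α + β * (1 - (g : ℤ))) + β * A =
        ((q + 1) * (α + β) + β * A) + (-((q + 1) * β)) * g := by
      intro g; ring
    rw [Finset.sum_congr rfl (fun g _ => this g), Finset.sum_add_distrib, Finset.sum_const,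
      ← Finset.mul_sum, Nat.card_Ico]
    have : n + 2 + (q + 1) - (n + 2) = q + 1 := by omega
    rw [this, nsmul_eq_mul]
    push_cast
    ring
  rw [outer]
  set B := ∑ g ∈ Finset.Ico (n + 2) (n + 2 + (q + 1)), (g : ℤ) with hB
  have h1' : B * 2 = 2 * ((q + 1 : ℕ) : ℤ) * ((n + 2 : ℕ) : ℤ) +
      ((q + 1 : ℕ) : ℤ) * (((q + 1 : ℕ) : ℤ) - 1) := by
    rw [← h1]; ring
  have h2' : A * 2 = 2 * ((q + 1 : ℕ) : ℤ) * ((n + q + 2 : ℕ) : ℤ) +
      ((q + 1 : ℕ) : ℤ) * (((q + 1 : ℕ) : ℤ) - 1) := by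
    rw [← h2]; ring
  have : A - B = (q + 1 : ℤ) * q := by
    push_cast at h1' h2'
    linarith
  have hAB : A = B + (q + 1 : ℤ) * q := by linarith
  rw [hAB]
  ring

/-- All gaps. -/
def Gaps (n q : ℕ) : Finset (ℕ × ℕ) := ((T 1 n ∪ T (n + 2) q) ∪ T (n + q + 3) q) ∪ Rm n q

theorem mem_Gaps {n q : ℕ} {x : ℕ × ℕ} : x ∈ Gaps n q ↔
    1 ≤ x.1 ∧ x.1 ≤ x.2 ∧ x.2 < n + 2 * q + 3 ∧ (x.2 ≤ n ∨ n + 2 ≤ x.1) := by
  simp only [Gaps, Finset.mem_union, mem_T, mem_Rm]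
  omega

theorem sum_Gaps (n q : ℕ) (α₁ β₁ α₂ β₂ : ℤ) :
    6 * ∑ x ∈ Gaps n q, (if n + 2 + q < x.1 ∨ x.2 < n + 2 + q then
        (α₁ + β₁ * ((x.2 : ℤ) - (x.1 : ℤ) + 1)) else
        (α₂ + β₂ * ((x.2 : ℤ) - (x.1 : ℤ) + 1))) =
      3 * n * (n + 1) * α₁ + n * (n + 1) * (n + 2) * β₁ +
      2 * (3 * q * (q + 1) * α₁ + q * (q + 1) * (q + 2) * β₁) +
      6 * ((q + 1) ^ 2 * α₂ + (q + 1) ^ 3 * β₂) := by
  have d1 : Disjoint (T 1 n) (T (n + 2) q) := by
    rw [Finset.disjoint_left]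
    intro x hx hx'
    rw [mem_T] at hx hx'
    omega
  have d2 : Disjoint (T 1 n ∪ T (n + 2) q) (T (n + q + 3) q) := by
    rw [Finset.disjoint_left]
    intro x hx hx'
    rw [Finset.mem_union, mem_T, mem_T] at hx
    rw [mem_T] at hx'
    omega
  have d3 : Disjoint ((T 1 n ∪ T (n + 2) q) ∪ T (n + q + 3) q) (Rm n q) := by
    rw [Finset.disjoint_left]
    intro x hx hx'
    rw [Finset.mem_union, Finset.mem_union, mem_T, mem_T, mem_T] at hx
    rw [mem_Rm] at hx'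
    omega
  rw [Gaps, Finset.sum_union d3, Finset.sum_union d2, Finset.sum_union d1]
  have s1 : ∀ s m : ℕ, (∀ x ∈ T s m, n + 2 + q < x.1 ∨ x.2 < n + 2 + q) →
      ∑ x ∈ T s m, (if n + 2 + q < x.1 ∨ x.2 < n + 2 + q then
        (α₁ + β₁ * ((x.2 : ℤ) - (x.1 : ℤ) + 1)) else
        (α₂ + β₂ * ((x.2 : ℤ) - (x.1 : ℤ) + 1))) =
      ∑ x ∈ T s m, (α₁ + β₁ * ((x.2 : ℤ) - (x.1 : ℤ) + 1)) := by
    intro s m hT
    exact Finset.sum_congr rfl (fun x hx => if_pos (hT x hx))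
  rw [s1 1 n (by intro x hx; rw [mem_T] at hx; omega),
    s1 (n + 2) q (by intro x hx; rw [mem_T] at hx; omega),
    s1 (n + q + 3) q (by intro x hx; rw [mem_T] at hx; omega)]
  have s2 : ∑ x ∈ Rm n q, (if n + 2 + q < x.1 ∨ x.2 < n + 2 + q then
        (α₁ + β₁ * ((x.2 : ℤ) - (x.1 : ℤ) + 1)) else
        (α₂ + β₂ * ((x.2 : ℤ) - (x.1 : ℤ) + 1))) =
      ∑ x ∈ Rm n q, (α₂ + β₂ * ((x.2 : ℤ) - (x.1 : ℤ) + 1)) := by
    refine Finset.sum_congr rfl (fun x hx => if_neg ?_)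
    rw [mem_Rm] at hx
    omega
  rw [s2, sum_Rm, mul_add, mul_add, mul_add, sum_T, sum_T, sum_T]
  ring

end Pool.Agent.V11232.MS
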