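import Pool.Agent.V11232.MS.Lower
import Pool.Agent.V11232.MS.Sums

/-!
Sums over connected sets and subtrees.
-/

namespace Pool.Agent.V11232.MS

open SimpleGraph Finset

variable {n p k : ℕ}

/-- The vertex set with given parts. -/
def mk (A : Finset (Fin (n + 2 * p + 1))) (X : Finset (Bool × Fin k)) (Z : Finset Bool) :
    Finset (Vx n p k) := A.disjSum (X.disjSum Z)

@[simp] theorem mem_mk_cyc {A : Finset (Fin (n + 2 * p + 1))} {X : Finset (Bool × Fin k)}
    {Z : Finset Bool} {i : Fin (n + 2 * p + 1)} : (Sum.inl i : Vx n p k) ∈ mk A X Z ↔ i ∈ A := by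
  simp [mk]

@[simp] theorem mem_mk_leaf {A : Finset (Fin (n + 2 * p + 1))} {X : Finset (Bool × Fin k)}
    {Z : Finset Bool} {x : Bool × Fin k} :
    (Sum.inr (Sum.inl x) : Vx n p k) ∈ mk A X Z ↔ x ∈ X := by
  simp [mk]

@[simp] theorem mem_mk_gad {A : Finset (Fin (n + 2 * p + 1))} {X : Finset (Bool × Fin k)}
    {Z : Finset Bool} {c : Bool} :
    (gad c : Vx n p k) ∈ mk A X Z ↔ c ∈ Z := by
  simp [mk]

theorem card_mk {A : Finset (Fin (n + 2 * p + 1))} {X : Finset (Bool × Fin k)}
    {Z : Finset Bool} : (mk A X Z).card = A.card + (X.card + Z.card) := by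
  simp [mk]

theorem exists_mk (S : Finset (Vx n p k)) : ∃ A X Z, S = mk A X Z :=
  ⟨S.toLeft, S.toRight.toLeft, S.toRight.toRight, by
    rw [mk, toLeft_disjSum_toRight, toLeft_disjSum_toRight]⟩

theorem sum_all (F : Finset (Vx n p k) → ℤ) :
    ∑ S, F S = ∑ A : Finset (Fin (n + 2 * p + 1)), ∑ X : Finset (Bool × Fin k),
      ∑ Z : Finset Bool, F (mk A X Z) := by
  rw [← Equiv.sum_comp (Finset.sumEquiv (α := Fin (n + 2 * p + 1))
    (β := (Bool × Fin k) ⊕ Bool)).symm.toEquiv F, Fintype.sum_prod_type]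
  refine Finset.sum_congr rfl (fun A _ => ?_)
  rw [← Equiv.sum_comp (Finset.sumEquiv (α := Bool × Fin k) (β := Bool)).symm.toEquiv,
    Fintype.sum_prod_type]
  rfl

/-- Sum of an affine function of the cardinality over all sets of leaves. -/
theorem sum_leaves (k : ℕ) (α β : ℤ) :
    ∑ X : Finset (Bool × Fin k), (α + β * (X.card : ℤ)) = 4 ^ k * (α + k * β) := by
  have hcard : Fintype.card (Bool × Fin k) = 2 * k := by simp
  have h1 : ∑ X : Finset (Bool × Fin k), (X.card : ℤ) =
      ∑ X : Finset (Bool × Fin k), ((Xᶜ.card : ℕ) : ℤ) :=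
    (Equiv.sum_comp (Equiv.ofBijective (fun X : Finset (Bool × Fin k) => Xᶜ)
      compl_bijective) (fun X => (X.card : ℤ))).symm
  have h2 : ∀ X : Finset (Bool × Fin k), ((Xᶜ.card : ℕ) : ℤ) = 2 * k - X.card := by
    intro X
    have := Finset.card_add_card_compl X
    rw [hcard] at this
    have h3 : ((X.card : ℕ) : ℤ) + ((Xᶜ.card : ℕ) : ℤ) = 2 * k := by exact_mod_cast this
    linarith
  rw [Finset.sum_congr rfl (fun X _ => h2 X), Finset.sum_sub_distrib, Finset.sum_const,
    Finset.card_univ, Fintype.card_finset, hcard] at h1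
  have h4 : ∑ X : Finset (Bool × Fin k), (X.card : ℤ) = 4 ^ k * k := by
    have e : (2 : ℤ) ^ (2 * k) = 4 ^ k := by rw [pow_mul]; norm_num
    rw [nsmul_eq_mul] at h1
    push_cast at h1
    rw [e] at h1
    linarith
  rw [Finset.sum_add_distrib, ← Finset.mul_sum, h4, Finset.sum_const, Finset.card_univ,
    Fintype.card_finset, hcard, nsmul_eq_mul]
  push_cast
  have e : (2 : ℤ) ^ (2 * k) = 4 ^ k := by rw [pow_mul]; norm_num
  rw [e]
  ring

theorem sum_gads (F : Finset Bool → ℤ) :
    ∑ Z : Finset Bool, F Z = F ∅ + F {false} + F {true} + F {false, true} := by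
  have : (Finset.univ : Finset (Finset Bool)) = {∅, {false}, {true}, {false, true}} := by decide
  rw [this]
  rw [Finset.sum_insert (by decide), Finset.sum_insert (by decide), Finset.sum_insert (by decide),
    Finset.sum_singleton]
  ring

/-- Complement of an interval of positions. -/
def Ac (n p g h : ℕ) : Finset (Fin (n + 2 * p + 1)) :=
  Finset.univ.filter (fun i => i.val < g ∨ h < i.val)

theorem mem_Ac {g h : ℕ} {i : Fin (n + 2 * p + 1)} : i ∈ Ac n p g h ↔ (i.val < g ∨ h < i.val) := by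
  simp [Ac]

theorem card_Ac {g h : ℕ} (hgh : g ≤ h) (hh : h < n + 2 * p + 1) :
    ((Ac n p g h).card : ℤ) = (n + 2 * p + 1) - ((h : ℤ) - g + 1) := by
  have h1 : (Ac n p g h)ᶜ.card = h + 1 - g := by
    have : ((Ac n p g h)ᶜ).image (fun i => i.val) = Finset.Icc g h := by
      ext x
      simp only [Finset.mem_image, Finset.mem_compl, mem_Ac, Finset.mem_Icc]
      constructor
      · rintro ⟨i, hi, rfl⟩
        omega
      · intro hx
        exact ⟨⟨x, by omega⟩, by simp only; omega, rfl⟩
    rw [← Finset.card_image_of_injective _ Fin.val_injective, this, Nat.card_Icc]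
  have h2 := Finset.card_add_card_compl (Ac n p g h)
  rw [Fintype.card_fin, h1] at h2
  omega

theorem Ac_inj {g h g' h' : ℕ} (h1 : g ≤ h) (h2 : h < n + 2 * p + 1) (h1' : g' ≤ h')
    (h2' : h' < n + 2 * p + 1) (he : Ac n p g h = Ac n p g' h') : g = g' ∧ h = h' := by
  have key : ∀ x (hx : x < n + 2 * p + 1), (x < g ∨ h < x) ↔ (x < g' ∨ h' < x) := by
    intro x hx
    have := Finset.ext_iff.1 he ⟨x, hx⟩
    rw [mem_Ac, mem_Ac] at this
    exact this
  have a1 := key g (by omega)
  have a2 := key h (by omega)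
  have a3 := key g' (by omega)
  have a4 := key h' (by omega)
  omega

open Classical in
/-- Connectivity indicator. -/
noncomputable def aU (S : Finset (Vx n p k)) : ℤ :=
  if (ind (S : Set (Vx n p k))).Connected then 1 else 0

/-- Number of spanning trees. -/
noncomputable def aW (S : Finset (Vx n p k)) : ℤ := ((TreesOn (S : Set (Vx n p k))).ncard : ℤ)

theorem aU_nonneg (S : Finset (Vx n p k)) : 0 ≤ aU S := by
  rw [aU]; split_ifs <;> norm_num

theorem aU_le (S : Finset (Vx n p k)) : aU S ≤ 1 := by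
  rw [aU]; split_ifs <;> norm_num

theorem aW_nonneg (S : Finset (Vx n p k)) : 0 ≤ aW S := by
  rw [aW]; positivity

theorem aW_zero {S : Finset (Vx n p k)} (h : ¬ (ind (S : Set (Vx n p k))).Connected) :
    aW S = 0 := by
  rw [aW]
  have : TreesOn (S : Set (Vx n p k)) = ∅ := by
    ext H
    simp only [Set.mem_empty_iff_false, iff_false]
    rintro ⟨h1, h2⟩
    apply h
    have hc := conn_of_tree h1
    refine Subgraph.Connected.mono ?_ ?_ hc
    · rw [← h2]
      exact Subgraph.le_induce_top_verts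
    · rw [h2]; rfl
  rw [this]
  simp

end Pool.Agent.V11232.MS
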