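import Pool.Agent.V11232.MS.Bad

/-!
The numerical comparison.
-/

namespace Pool.Agent.V11232.MS

open SimpleGraph Finset

theorem EE_le (n q k : ℕ) : (EE n q k : ℤ) ≤ 10 * (2 ^ (n + 2 * (q + 1) + 1) * 2 ^ k) := by
  have h1 : k ≤ 2 ^ k := (Nat.lt_two_pow_self).le
  have h2 : k ≤ 2 ^ (n + 2 * (q + 1) + 1) * 2 ^ k := by
    calc k ≤ 1 * 2 ^ k := by rw [one_mul]; exact h1
      _ ≤ 2 ^ (n + 2 * (q + 1) + 1) * 2 ^ k := Nat.mul_le_mul_right _ Nat.one_le_two_pow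
  have h3 : EE n q k ≤ 10 * (2 ^ (n + 2 * (q + 1) + 1) * 2 ^ k) := by
    rw [EE]
    have : 2 ^ (n + 2 * (q + 1) + 1) * (2 ^ k * 4) = 4 * (2 ^ (n + 2 * (q + 1) + 1) * 2 ^ k) := by
      ring
    rw [this]
    omega
  exact_mod_cast h3

/-- Positivity of the unweighted sum. -/
theorem pos_U (n q k : ℕ) (m d : ℤ) (hk : k = (n + 2 * (q + 1) + 1) + 60) (hm : 0 ≤ m)
    (hd : d = (n + 2 * q + 3) + k - m)
    (h : 0 < 2 ^ 60 * (6 * (4 * d + 4) + (3 * n * (n + 1) * (4 * d + 4) +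
      n * (n + 1) * (n + 2) * (-4) +
      2 * (3 * q * (q + 1) * (4 * d + 4) + q * (q + 1) * (q + 2) * (-4)) +
      6 * ((q + 1) ^ 2 * d + (q + 1) ^ 3 * (-1)))) - 60 * m) :
    0 < ∑ S : Finset (Vx n (q + 1) k), aU S * ((S.card : ℤ) - m) := by
  have h1 := total_U (n := n) (q := q) (k := k) m d hm hd
  have h2 := EE_le n q k
  set P : ℤ := 2 ^ (n + 2 * (q + 1) + 1) * 2 ^ k with hP
  have hPpos : 0 < P := by positivity
  have h4 : (4 : ℤ) ^ k = 2 ^ 60 * P := by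
    have e1 : (4 : ℤ) ^ k = 2 ^ k * 2 ^ k := by
      rw [← mul_pow]; norm_num
    have e2 : (2 : ℤ) ^ k = 2 ^ (n + 2 * (q + 1) + 1) * 2 ^ 60 := by
      rw [← pow_add, ← hk]
    rw [e1, hP]
    calc (2 : ℤ) ^ k * 2 ^ k = (2 ^ (n + 2 * (q + 1) + 1) * 2 ^ 60) * 2 ^ k := by rw [← e2]
      _ = 2 ^ 60 * (2 ^ (n + 2 * (q + 1) + 1) * 2 ^ k) := by ring
  rw [h4] at h1
  set Q : ℤ := 6 * (4 * d + 4) + (3 * n * (n + 1) * (4 * d + 4) +
      n * (n + 1) * (n + 2) * (-4) +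
      2 * (3 * q * (q + 1) * (4 * d + 4) + q * (q + 1) * (q + 2) * (-4)) +
      6 * ((q + 1) ^ 2 * d + (q + 1) ^ 3 * (-1))) with hQ
  have h5 : 0 < P * (2 ^ 60 * Q - 60 * m) := mul_pos hPpos h
  have h6 : m * (EE n q k : ℤ) ≤ m * (10 * P) := mul_le_mul_of_nonneg_left h2 hm
  nlinarith

/-- Negativity of the weighted sum. -/
theorem neg_W (n q k : ℕ) (m d : ℤ) (hk : k = (n + 2 * (q + 1) + 1) + 60) (hm : 0 ≤ m)
    (hd : d = (n + 2 * q + 3) + k - m)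
    (h : 2 ^ 60 * (6 * (4 * (8 * (n + 2 * q + 4) * ((n + 2 * q + 3) + 2 * k + 2))) +
      (3 * n * (n + 1) * (6 * d + 8) + n * (n + 1) * (n + 2) * (-6) +
      2 * (3 * q * (q + 1) * (6 * d + 8) + q * (q + 1) * (q + 2) * (-6)) +
      6 * ((q + 1) ^ 2 * d + (q + 1) ^ 3 * (-1)))) +
      480 * ((n + 2 * q + 3) + 2 * k + 2) < 0) :
    ∑ S : Finset (Vx n (q + 1) k), aW S * ((S.card : ℤ) - m) < 0 := by
  have h1 := total_W (n := n) (q := q) (k := k) m d hm hd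
  have h2 := EE_le n q k
  set P : ℤ := 2 ^ (n + 2 * (q + 1) + 1) * 2 ^ k with hP
  have hPpos : 0 < P := by positivity
  have h4 : (4 : ℤ) ^ k = 2 ^ 60 * P := by
    have e1 : (4 : ℤ) ^ k = 2 ^ k * 2 ^ k := by
      rw [← mul_pow]; norm_num
    have e2 : (2 : ℤ) ^ k = 2 ^ (n + 2 * (q + 1) + 1) * 2 ^ 60 := by
      rw [← pow_add, ← hk]
    rw [e1, hP]
    calc (2 : ℤ) ^ k * 2 ^ k = (2 ^ (n + 2 * (q + 1) + 1) * 2 ^ 60) * 2 ^ k := by rw [← e2]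
      _ = 2 ^ 60 * (2 ^ (n + 2 * (q + 1) + 1) * 2 ^ k) := by ring
  rw [h4] at h1
  set Q : ℤ := 6 * (4 * (8 * (n + 2 * q + 4) * ((n + 2 * q + 3) + 2 * k + 2))) +
      (3 * n * (n + 1) * (6 * d + 8) + n * (n + 1) * (n + 2) * (-6) +
      2 * (3 * q * (q + 1) * (6 * d + 8) + q * (q + 1) * (q + 2) * (-6)) +
      6 * ((q + 1) ^ 2 * d + (q + 1) ^ 3 * (-1))) with hQ
  set W : ℤ := (n + 2 * q + 3) + 2 * k + 2 with hW
  have hWnn : 0 ≤ W := by rw [hW]; positivity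
  have h5 : P * (2 ^ 60 * Q + 480 * W) < 0 := mul_neg_of_pos_of_neg hPpos h
  have h6 : W * (EE n q k : ℤ) ≤ W * (10 * P) := mul_le_mul_of_nonneg_left h2 hWnn
  nlinarith

theorem gr_connected (n q k : ℕ) : (Gr n (q + 1) k).Connected := by
  have hlt : n + 1 + (q + 1) < n + 2 * (q + 1) + 1 := by omega
  have h : (⊤ : (Gr n (q + 1) k).Subgraph).Connected := by
    refine good_conn (S := Set.univ) (g := n + 2 * (q + 1) + 1) (h := 0) ?_ (by omega) rfl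
      (fun i j _ _ h => h) (fun i x _ _ h => h) ⟨n + 1 + (q + 1), hlt⟩ rfl ?_
    · refine ⟨by omega, ?_, fun _ _ => Set.mem_univ _, fun _ _ _ _ => Set.mem_univ _⟩
      intro i
      have := i.isLt
      simp only [Set.mem_univ, true_iff]
      left; exact this
    · intro c _
      left
      exact adj_gad_mk rfl
  exact (Subgraph.topIso.connected_iff).1 h.coe

end Pool.Agent.V11232.MS
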