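import Mathlib

/-!
The graph `Gr n p k`: a cycle of length `n + 2p + 1` with `k` leaves at position `0`, `k` leaves at
position `n + 1`, and a triangle attached at position `n + 1 + p`.
-/

namespace Pool.Agent.V11232.MS

open SimpleGraph

/-- Vertices: cycle vertices, leaves (two bundles), two extra triangle vertices. -/
abbrev Vx (n p k : ℕ) : Type := Fin (n + 2 * p + 1) ⊕ (Bool × Fin k) ⊕ Bool

variable {n p k : ℕ}

/-- Base position of a leaf bundle. -/
def lpos (n : ℕ) (s : Bool) : ℕ := if s then n + 1 else 0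

/-- The position on the cycle above which a vertex sits. -/
def pos : Vx n p k → ℕ
  | Sum.inl i => i.val
  | Sum.inr (Sum.inl x) => lpos n x.1
  | Sum.inr (Sum.inr _) => n + 1 + p

/-- The directed incidence relation. -/
def Rel : Vx n p k → Vx n p k → Prop
  | Sum.inl i, Sum.inl j => i.val + 1 = j.val ∨ (i.val = n + 2 * p ∧ j.val = 0)
  | Sum.inl i, Sum.inr (Sum.inl x) => i.val = lpos n x.1
  | Sum.inl i, Sum.inr (Sum.inr _) => i.val = n + 1 + p
  | Sum.inr (Sum.inr b), Sum.inr (Sum.inr c) => b = false ∧ c = true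
  | _, _ => False

/-- The graph. -/
def Gr (n p k : ℕ) : SimpleGraph (Vx n p k) := SimpleGraph.fromRel Rel

/-- Adjacent vertices either have the same base position or are consecutive on the cycle. -/
theorem adj_cases {u v : Vx n p k} (h : (Gr n p k).Adj u v) :
    pos u = pos v ∨ ∃ i j : Fin (n + 2 * p + 1), u = Sum.inl i ∧ v = Sum.inl j ∧
      (i.val + 1 = j.val ∨ j.val + 1 = i.val ∨ (i.val = n + 2 * p ∧ j.val = 0) ∨
        (j.val = n + 2 * p ∧ i.val = 0)) := by
  rw [Gr, SimpleGraph.fromRel_adj] at h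
  obtain ⟨-, h⟩ := h
  rcases u with i | x | b <;> rcases v with j | y | c <;> simp only [Rel, pos, or_false, false_or] at h ⊢
  · right
    exact ⟨i, j, rfl, rfl, by tauto⟩
  · left; exact h
  · left; exact h
  · left; exact h.symm
  · left; exact h.symm
  · left; trivial

theorem adj_cyc {i j : Fin (n + 2 * p + 1)} (h : (Gr n p k).Adj (Sum.inl i) (Sum.inl j)) :
      (i.val + 1 = j.val ∨ j.val + 1 = i.val ∨ (i.val = n + 2 * p ∧ j.val = 0) ∨
        (j.val = n + 2 * p ∧ i.val = 0)) := by
  rw [Gr, SimpleGraph.fromRel_adj] at h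
  simp only [Rel] at h
  tauto

theorem adj_cyc_mk {i j : Fin (n + 2 * p + 1)} (hij : i ≠ j)
    (h : i.val + 1 = j.val ∨ (i.val = n + 2 * p ∧ j.val = 0)) :
    (Gr n p k).Adj (Sum.inl i) (Sum.inl j) := by
  rw [Gr, SimpleGraph.fromRel_adj]
  refine ⟨by simpa using hij, Or.inl ?_⟩
  simpa only [Rel] using h

theorem adj_leaf {x : Bool × Fin k} {v : Vx n p k}
    (h : (Gr n p k).Adj (Sum.inr (Sum.inl x)) v) :
    ∃ i : Fin (n + 2 * p + 1), v = Sum.inl i ∧ i.val = lpos n x.1 := by
  rw [Gr, SimpleGraph.fromRel_adj] at h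
  obtain ⟨-, h⟩ := h
  rcases v with j | y | c <;> simp only [Rel, or_false, false_or] at h
  exact ⟨j, rfl, h⟩

theorem adj_leaf_mk {x : Bool × Fin k} {i : Fin (n + 2 * p + 1)} (h : i.val = lpos n x.1) :
    (Gr n p k).Adj (Sum.inl i) (Sum.inr (Sum.inl x)) := by
  rw [Gr, SimpleGraph.fromRel_adj]
  exact ⟨by simp, Or.inl h⟩

theorem adj_gad {b : Bool} {v : Vx n p k}
    (h : (Gr n p k).Adj (Sum.inr (Sum.inr b)) v) :
    (∃ i : Fin (n + 2 * p + 1), v = Sum.inl i ∧ i.val = n + 1 + p) ∨
      v = Sum.inr (Sum.inr (!b)) := by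
  rw [Gr, SimpleGraph.fromRel_adj] at h
  obtain ⟨-, h⟩ := h
  rcases v with j | y | c
  · simp only [Rel, false_or] at h
    exact Or.inl ⟨j, rfl, h⟩
  · simp only [Rel, or_false] at h
  · right
    simp only [Rel] at h
    rcases h with ⟨rfl, rfl⟩ | ⟨rfl, rfl⟩ <;> rfl

theorem adj_gad_mk {b : Bool} {i : Fin (n + 2 * p + 1)} (h : i.val = n + 1 + p) :
    (Gr n p k).Adj (Sum.inl i) (Sum.inr (Sum.inr b)) := by
  rw [Gr, SimpleGraph.fromRel_adj]
  exact ⟨by simp, Or.inl h⟩

theorem adj_gad_gad : (Gr n p k).Adj (Sum.inr (Sum.inr false)) (Sum.inr (Sum.inr true)) := by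
  rw [Gr, SimpleGraph.fromRel_adj]
  exact ⟨by simp, Or.inl ⟨rfl, rfl⟩⟩

/-- The subgraph misses the cycle edge leaving position `x`. -/
def Cut (H : (Gr n p k).Subgraph) (x : ℕ) : Prop :=
  ∀ i j : Fin (n + 2 * p + 1), i.val = x → (i.val + 1 = j.val ∨ (i.val = n + 2 * p ∧ j.val = 0)) →
    ¬ H.Adj (Sum.inl i) (Sum.inl j)

/-- An invariant of connected subgraphs. -/
theorem conn_inv {V : Type*} {G : SimpleGraph V} {H : G.Subgraph} (hH : H.Connected)
    (P : V → Prop) (hP : ∀ u v, H.Adj u v → P u → P v) {u v : V} (hu : u ∈ H.verts)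
    (hv : v ∈ H.verts) (h : P u) : P v := by
  have hr : H.coe.Reachable ⟨u, hu⟩ ⟨v, hv⟩ := hH.coe.preconnected _ _
  obtain ⟨W⟩ := hr
  have key : ∀ {a b : H.verts}, H.coe.Walk a b → P a.1 → P b.1 := by
    intro a b W
    induction W with
    | nil => exact id
    | cons hadj _ ih =>
      intro hPa
      exact ih (hP _ _ hadj hPa)
  exact key W h

/-- Two cuts on the cycle separate the subgraph. -/
theorem cut_closed {H : (Gr n p k).Subgraph} {x y : ℕ} (_hxy : x < y) (hy : y ≤ n + 2 * p)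
    (hx : Cut H x) (hcy : Cut H y) (u v : Vx n p k) (huv : H.Adj u v)
    (hu : x < pos u ∧ pos u ≤ y) : x < pos v ∧ pos v ≤ y := by
  rcases adj_cases huv.adj_sub with h | ⟨i, j, rfl, rfl, h⟩
  · rw [← h]; exact hu
  · simp only [pos] at hu ⊢
    have hjlt := j.isLt
    have hilt := i.isLt
    rcases h with h | h | ⟨h1, h2⟩ | ⟨h1, h2⟩
    · by_cases hj : j.val ≤ y
      · omega
      · exfalso
        exact hcy i j (by omega) (Or.inl h) huv
    · by_cases hj : x < j.val
      · omega
      · exfalso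
        exact hx j i (by omega) (Or.inl h) huv.symm
    · exfalso
      exact hcy i j (by omega) (Or.inr ⟨h1, h2⟩) huv
    · omega

theorem cut_of_missing {H : (Gr n p k).Subgraph} {g : Fin (n + 2 * p + 1)}
    (hg : (Sum.inl g : Vx n p k) ∉ H.verts) : Cut H g.val := by
  intro i j hi _ hadj
  have : i = g := Fin.ext hi
  subst this
  exact hg (H.edge_vert hadj)

theorem cut_of_missing' {H : (Gr n p k).Subgraph} {g : Fin (n + 2 * p + 1)} {x : ℕ}
    (hg : (Sum.inl g : Vx n p k) ∉ H.verts) (hx : x + 1 = g.val) : Cut H x := by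
  intro i j hi hj hadj
  have hlt := g.isLt
  have : j = g := by
    apply Fin.ext
    omega
  subst this
  exact hg (H.edge_vert hadj.symm)

/-- In a connected subgraph missing a cycle vertex, all cycle edges between present vertices are
present. -/
theorem forced_cyc {H : (Gr n p k).Subgraph} (hH : H.Connected) {g : Fin (n + 2 * p + 1)}
    (hg : (Sum.inl g : Vx n p k) ∉ H.verts) {i j : Fin (n + 2 * p + 1)}
    (hi : (Sum.inl i : Vx n p k) ∈ H.verts) (hj : (Sum.inl j : Vx n p k) ∈ H.verts)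
    (hij : i.val + 1 = j.val ∨ (i.val = n + 2 * p ∧ j.val = 0)) :
    H.Adj (Sum.inl i) (Sum.inl j) := by
  by_contra hna
  have hcut : Cut H i.val := by
    intro i' j' hi' hj' hadj
    have h1 : i' = i := Fin.ext hi'
    subst h1
    have h2 : j' = j := by
      apply Fin.ext
      have := j'.isLt
      have := j.isLt
      omega
    subst h2
    exact hna hadj
  have hgi : g ≠ i := by rintro rfl; exact hg hi
  have hgj : g ≠ j := by rintro rfl; exact hg hj
  have hgi' : g.val ≠ i.val := fun h => hgi (Fin.ext h)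
  have hgj' : g.val ≠ j.val := fun h => hgj (Fin.ext h)
  have hilt := i.isLt
  have hglt := g.isLt
  rcases Nat.lt_or_gt_of_ne hgi' with h | h
  · have := conn_inv hH (fun v => g.val < pos v ∧ pos v ≤ i.val)
      (cut_closed h (by omega) (cut_of_missing hg) hcut) hi hj (by simp only [pos]; omega)
    simp only [pos] at this
    omega
  · have h1 : i.val + 1 = j.val := by omega
    have h2 : i.val < g.val - 1 := by omega
    have := conn_inv hH (fun v => i.val < pos v ∧ pos v ≤ g.val - 1)
      (cut_closed h2 (by omega) hcut (cut_of_missing' hg (by omega))) hj hi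
      (by simp only [pos]; omega)
    simp only [pos] at this
    omega

/-- A leaf is joined to its base whenever the base is present. -/
theorem forced_leaf {H : (Gr n p k).Subgraph} (hH : H.Connected) {x : Bool × Fin k}
    {i : Fin (n + 2 * p + 1)} (hi : i.val = lpos n x.1)
    (hiH : (Sum.inl i : Vx n p k) ∈ H.verts) (hx : (Sum.inr (Sum.inl x) : Vx n p k) ∈ H.verts) :
    H.Adj (Sum.inr (Sum.inl x)) (Sum.inl i) := by
  by_contra hna
  have := conn_inv hH (fun v => v = (Sum.inr (Sum.inl x) : Vx n p k)) (by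
    rintro u v huv rfl
    obtain ⟨j, rfl, hj⟩ := adj_leaf huv.adj_sub
    have : j = i := Fin.ext (hj.trans hi.symm)
    subst this
    exact (hna huv).elim) hx hiH rfl
  simp at this

/-- If the base of a leaf is absent then the leaf is alone. -/
theorem leaf_alone {H : (Gr n p k).Subgraph} (hH : H.Connected) {x : Bool × Fin k}
    (hno : ∀ i : Fin (n + 2 * p + 1), i.val = lpos n x.1 → (Sum.inl i : Vx n p k) ∉ H.verts)
    (hx : (Sum.inr (Sum.inl x) : Vx n p k) ∈ H.verts) {v : Vx n p k} (hv : v ∈ H.verts) :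
    v = Sum.inr (Sum.inl x) := by
  refine conn_inv hH (fun v => v = (Sum.inr (Sum.inl x) : Vx n p k)) ?_ hx hv rfl
  rintro u v huv rfl
  obtain ⟨j, rfl, hj⟩ := adj_leaf huv.adj_sub
  exact (hno j hj (H.edge_vert huv.symm)).elim

end Pool.Agent.V11232.MS
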