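import Pool.Agent.V11232.MS.Trees

/-!
Connected sets of `Gr n p k` containing both star centres, and their spanning trees.
-/

namespace Pool.Agent.V11232.MS

open SimpleGraph

variable {n p k : ℕ}

/-- A vertex set of the expected shape: the cycle part is the complement of the interval
`[g, h]`, with `1 ≤ g`, it contains position `n + 1`, and triangle vertices need their base. -/
structure Good (S : Set (Vx n p k)) (g h : ℕ) : Prop where
  one_le : 1 ≤ g
  cyc : ∀ i : Fin (n + 2 * p + 1), (Sum.inl i : Vx n p k) ∈ S ↔ (i.val < g ∨ h < i.val)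
  two : ∀ i : Fin (n + 2 * p + 1), i.val = n + 1 → (Sum.inl i : Vx n p k) ∈ S
  base : ∀ c : Bool, (gad c : Vx n p k) ∈ S →
    ∀ i : Fin (n + 2 * p + 1), i.val = n + 1 + p → (Sum.inl i : Vx n p k) ∈ S

theorem good_conn {S : Set (Vx n p k)} {g h : ℕ} (hS : Good S g h) (hp : 0 < p)
    {K : (Gr n p k).Subgraph} (hV : K.verts = S)
    (hcyc : ∀ i j : Fin (n + 2 * p + 1), (Sum.inl i : Vx n p k) ∈ S →
      (Sum.inl j : Vx n p k) ∈ S → (Gr n p k).Adj (Sum.inl i) (Sum.inl j) →
      K.Adj (Sum.inl i) (Sum.inl j))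
    (hleaf : ∀ (i : Fin (n + 2 * p + 1)) (x : Bool × Fin k), (Sum.inl i : Vx n p k) ∈ S →
      (Sum.inr (Sum.inl x) : Vx n p k) ∈ S → (Gr n p k).Adj (Sum.inl i) (Sum.inr (Sum.inl x)) →
      K.Adj (Sum.inl i) (Sum.inr (Sum.inl x)))
    (w : Fin (n + 2 * p + 1)) (hw : w.val = n + 1 + p)
    (hgad : ∀ c : Bool, (gad c : Vx n p k) ∈ S →
      (K.Adj (Sum.inl w) (gad c) ∨ (K.Adj (Sum.inl w) (gad (!c)) ∧ K.Adj (gad (!c)) (gad c)))) :
    K.Connected := by
  subst hV
  have h0 : (Sum.inl (0 : Fin (n + 2 * p + 1)) : Vx n p k) ∈ K.verts := by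
    rw [hS.cyc]; left
    have := hS.one_le
    simp only [Fin.val_zero]
    omega
  let r : Vx n p k → Prop := fun v => ∃ hv : v ∈ K.verts, K.coe.Reachable ⟨_, h0⟩ ⟨v, hv⟩
  have hstep : ∀ u v, r u → K.Adj u v → r v := by
    rintro u v ⟨hu, hr⟩ hadj
    have hv := K.edge_vert hadj.symm
    refine ⟨hv, hr.trans ?_⟩
    have : K.coe.Adj ⟨u, hu⟩ ⟨v, hv⟩ := hadj
    exact this.reachable
  have hr0 : r (Sum.inl 0) := ⟨h0, Reachable.refl _⟩
  have hup : ∀ m : ℕ, ∀ i : Fin (n + 2 * p + 1), i.val = m → m < g → r (Sum.inl i) := by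
    intro m
    induction m with
    | zero =>
      intro i hi _
      have : i = 0 := Fin.ext hi
      rw [this]; exact hr0
    | succ m ih =>
      intro i hi hm
      have hilt := i.isLt
      have hj := ih ⟨m, by omega⟩ rfl (by omega)
      refine hstep _ _ hj (hcyc _ _ ?_ ?_ ?_)
      · rw [hS.cyc]; left; simp only; omega
      · rw [hS.cyc]; left; omega
      · apply adj_cyc_mk
        · intro h; rw [← h] at hi; simp at hi
        · left; simp only; omega
  have hdown : ∀ m : ℕ, ∀ i : Fin (n + 2 * p + 1), i.val + m = n + 2 * p → h < i.val →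
      r (Sum.inl i) := by
    intro m
    induction m with
    | zero =>
      intro i hi hm
      by_cases hi0 : i = 0
      · rw [hi0]; exact hr0
      refine hstep _ _ hr0 (hcyc _ _ h0 ?_ ?_)
      · rw [hS.cyc]; right; exact hm
      · refine (adj_cyc_mk (i := i) (j := 0) hi0 ?_).symm
        right; exact ⟨by omega, rfl⟩
    | succ m ih =>
      intro i hi hm
      have hj := ih ⟨i.val + 1, by omega⟩ (by simp only; omega) (by simp only; omega)
      refine hstep _ _ hj (hcyc _ _ ?_ ?_ ?_)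
      · rw [hS.cyc]; right; simp only; omega
      · rw [hS.cyc]; right; omega
      · refine (adj_cyc_mk ?_ ?_).symm
        · intro h
          have := congrArg Fin.val h
          simp only at this
          omega
        · left; rfl
  have hcy : ∀ i : Fin (n + 2 * p + 1), (Sum.inl i : Vx n p k) ∈ K.verts → r (Sum.inl i) := by
    intro i hi
    rw [hS.cyc] at hi
    rcases hi with hi | hi
    · exact hup _ i rfl hi
    · exact hdown (n + 2 * p - i.val) i (by have := i.isLt; omega) hi
  have hall : ∀ v ∈ K.verts, r v := by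
    intro v hv
    rcases v with i | x | c
    · exact hcy i hv
    · obtain ⟨s, t⟩ := x
      rcases s with _ | _
      · refine hstep _ _ hr0 (hleaf _ _ h0 hv (adj_leaf_mk ?_))
        simp [lpos]
      · have hlt : n + 1 < n + 2 * p + 1 := by omega
        have h2 := hS.two ⟨n + 1, hlt⟩ rfl
        refine hstep _ _ (hcy _ h2) (hleaf _ _ h2 hv (adj_leaf_mk ?_))
        simp [lpos]
    · have hb := hS.base c hv w hw
      rcases hgad c hv with h1 | ⟨h1, h2⟩
      · exact hstep _ _ (hcy w hb) h1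
      · exact hstep _ _ (hstep _ _ (hcy w hb) h1) h2
  rw [Subgraph.connected_iff']
  have : Nonempty K.verts := ⟨⟨_, h0⟩⟩
  refine ⟨?_⟩
  intro a b
  obtain ⟨ha1, ha2⟩ := hall a.1 a.2
  obtain ⟨hb1, hb2⟩ := hall b.1 b.2
  exact ha2.symm.trans hb2

/-- The induced subgraph. -/
abbrev ind (S : Set (Vx n p k)) : (Gr n p k).Subgraph := (⊤ : (Gr n p k).Subgraph).induce S

theorem ind_adj {S : Set (Vx n p k)} {u v : Vx n p k} (hu : u ∈ S) (hv : v ∈ S)
    (h : (Gr n p k).Adj u v) : (ind S).Adj u v := by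
  rw [Subgraph.induce_adj]
  exact ⟨hu, hv, h⟩

theorem good_ind_conn {S : Set (Vx n p k)} {g h : ℕ} (hS : Good S g h) (hp : 0 < p) :
    (ind S).Connected := by
  have hlt : n + 1 + p < n + 2 * p + 1 := by omega
  refine good_conn hS hp rfl (fun i j hi hj h => ind_adj hi hj h)
    (fun i x hi hx h => ind_adj hi hx h) ⟨n + 1 + p, hlt⟩ rfl ?_
  intro c hc
  exact Or.inl (ind_adj (hS.base c hc _ rfl) hc (adj_gad_mk rfl))

theorem one_le_treesOn {S : Set (Vx n p k)} (hS : (ind S).Connected) :
    1 ≤ (TreesOn S).ncard := by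
  obtain ⟨H, hH, hV, -⟩ := exists_tree (ind S) hS
  have : H ∈ TreesOn S := ⟨hH, hV⟩
  rw [Nat.one_le_iff_ne_zero]
  exact Set.ncard_ne_zero_of_mem this (Set.toFinite _)

/-- The induced subgraph with an edge deleted. -/
abbrev indDel (S : Set (Vx n p k)) (u v : Vx n p k) : (Gr n p k).Subgraph :=
  (ind S).deleteEdges {s(u, v)}

theorem indDel_adj {S : Set (Vx n p k)} {a b u v : Vx n p k} (hu : u ∈ S) (hv : v ∈ S)
    (h : (Gr n p k).Adj u v) (hne : s(u, v) ≠ s(a, b)) : (indDel S a b).Adj u v := by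
  rw [Subgraph.deleteEdges_adj]
  exact ⟨ind_adj hu hv h, by simpa using hne⟩

theorem indDel_not_adj {S : Set (Vx n p k)} {a b : Vx n p k} : ¬ (indDel S a b).Adj a b := by
  rw [Subgraph.deleteEdges_adj]
  intro h
  exact h.2 rfl

theorem three_le_treesOn {S : Set (Vx n p k)} {g h : ℕ} (hS : Good S g h) (hp : 0 < p)
    (ha : (gad false : Vx n p k) ∈ S) (hb : (gad true : Vx n p k) ∈ S) :
    3 ≤ (TreesOn S).ncard := by
  have hlt : n + 1 + p < n + 2 * p + 1 := by omega
  set w : Fin (n + 2 * p + 1) := ⟨n + 1 + p, hlt⟩ with hwdef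
  have hw : w.val = n + 1 + p := rfl
  have hwS := hS.base _ ha w hw
  have hg2 : ∀ c : Bool, (gad c : Vx n p k) ∈ S := by
    rintro (_ | _)
    · exact ha
    · exact hb
  -- a spanning tree avoiding a prescribed triangle edge
  have main : ∀ u v : Vx n p k, (∀ i j : Fin (n + 2 * p + 1),
        s((Sum.inl i : Vx n p k), Sum.inl j) ≠ s(u, v)) →
      (∀ (i : Fin (n + 2 * p + 1)) (x : Bool × Fin k),
        s((Sum.inl i : Vx n p k), Sum.inr (Sum.inl x)) ≠ s(u, v)) →
      (∀ c : Bool, ((indDel S u v).Adj (Sum.inl w) (gad c) ∨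
        ((indDel S u v).Adj (Sum.inl w) (gad (!c)) ∧ (indDel S u v).Adj (gad (!c)) (gad c)))) →
      ∃ H ∈ TreesOn S, ¬ H.Adj u v := by
    intro u v h1 h2 h3
    have hK : (indDel S u v).Connected := good_conn hS hp rfl
      (fun i j hi hj h => indDel_adj hi hj h (h1 i j))
      (fun i x hi hx h => indDel_adj hi hx h (h2 i x)) w hw (fun c _ => h3 c)
    obtain ⟨H, hH, hV, hsub⟩ := exists_tree (indDel S u v) hK
    exact ⟨H, ⟨hH, hV⟩, fun h => indDel_not_adj (hsub _ _ h)⟩
  have m1 : ∃ H ∈ TreesOn S, ¬ H.Adj (gad false) (gad true) := by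
    apply main
    · intro i j; simp
    · intro i x; simp
    · intro c
      left
      exact indDel_adj hwS (hg2 c) (adj_gad_mk hw) (by simp)
  have m2 : ∀ d : Bool, ∃ H ∈ TreesOn S, ¬ H.Adj (Sum.inl w) (gad d) := by
    intro d
    apply main
    · intro i j; simp
    · intro i x; simp
    · intro c
      by_cases hcd : c = d
      · subst hcd
        right
        refine ⟨indDel_adj hwS (hg2 _) (adj_gad_mk hw) (by cases c <;> simp), ?_⟩
        refine indDel_adj (hg2 _) (hg2 _) ?_ (by cases c <;> simp)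
        rcases c with _ | _
        · exact adj_gad_gad.symm
        · exact adj_gad_gad
      · left
        exact indDel_adj hwS (hg2 c) (adj_gad_mk hw) (by simpa using hcd)
  have hsub : codes3 ⊆ tcode w '' TreesOn S := by
    intro x hx
    obtain ⟨H1, h1, h1'⟩ := m1
    obtain ⟨H2, h2, h2'⟩ := m2 false
    obtain ⟨H3, h3, h3'⟩ := m2 true
    have c1 := tcode_mem hw hwS ha hb h1
    have c2 := tcode_mem hw hwS ha hb h2
    have c3 := tcode_mem hw hwS ha hb h3
    simp only [codes3, Set.mem_insert_iff, Set.mem_singleton_iff] at hx c1 c2 c3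
    rcases hx with rfl | rfl | rfl
    · refine ⟨H1, h1, ?_⟩
      simp only [tcode, Prod.mk.injEq, decide_eq_true_eq, decide_eq_false_iff_not] at c1 ⊢
      tauto
    · refine ⟨H3, h3, ?_⟩
      simp only [tcode, Prod.mk.injEq, decide_eq_true_eq, decide_eq_false_iff_not] at c3 ⊢
      tauto
    · refine ⟨H2, h2, ?_⟩
      simp only [tcode, Prod.mk.injEq, decide_eq_true_eq, decide_eq_false_iff_not] at c2 ⊢
      tauto
  calc 3 = codes3.ncard := codes3_ncard.symm
    _ ≤ (tcode w '' TreesOn S).ncard := Set.ncard_le_ncard hsub (Set.toFinite _)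
    _ ≤ (TreesOn S).ncard := Set.ncard_image_le (Set.toFinite _)

/-- The cycle part of a connected set containing positions `0` and `n + 1`. -/
theorem shape {S : Set (Vx n p k)} (hS : (ind S).Connected)
    (h0 : (Sum.inl (0 : Fin (n + 2 * p + 1)) : Vx n p k) ∈ S)
    (h2 : ∀ i : Fin (n + 2 * p + 1), i.val = n + 1 → (Sum.inl i : Vx n p k) ∈ S)
    (hmiss : ∃ i : Fin (n + 2 * p + 1), (Sum.inl i : Vx n p k) ∉ S) :
    ∃ g h : ℕ, g ≤ h ∧ h < n + 2 * p + 1 ∧ (h ≤ n ∨ n + 2 ≤ g) ∧ Good S g h := by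
  classical
  set M : Finset (Fin (n + 2 * p + 1)) := Finset.univ.filter (fun i => (Sum.inl i : Vx n p k) ∉ S)
    with hM
  have hne : M.Nonempty := by
    obtain ⟨i, hi⟩ := hmiss
    exact ⟨i, by simp [hM, hi]⟩
  set g := M.min' hne with hg
  set h := M.max' hne with hh
  have hgM : (Sum.inl g : Vx n p k) ∉ S := by
    have := M.min'_mem hne
    rw [← hg, hM, Finset.mem_filter] at this
    exact this.2
  have hhM : (Sum.inl h : Vx n p k) ∉ S := by
    have := M.max'_mem hne
    rw [← hh, hM, Finset.mem_filter] at this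
    exact this.2
  have hgh : g ≤ h := M.min'_le _ (M.max'_mem hne)
  have hlow : ∀ i : Fin (n + 2 * p + 1), i < g → (Sum.inl i : Vx n p k) ∈ S := by
    intro i hi
    by_contra hc
    have : g ≤ i := M.min'_le _ (by simp [hM, hc])
    exact absurd hi (not_lt.mpr this)
  have hhigh : ∀ i : Fin (n + 2 * p + 1), h < i → (Sum.inl i : Vx n p k) ∈ S := by
    intro i hi
    by_contra hc
    have : i ≤ h := M.le_max' _ (by simp [hM, hc])
    exact absurd hi (not_lt.mpr this)
  have hmid : ∀ i : Fin (n + 2 * p + 1), g ≤ i → i ≤ h → (Sum.inl i : Vx n p k) ∉ S := by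
    intro i h1 h2 hi
    have hgi : g ≠ i := by rintro rfl; exact hgM hi
    have hih : i ≠ h := by rintro rfl; exact hhM hi
    have h1' : g.val < i.val := lt_of_le_of_ne h1 (fun e => hgi (Fin.ext e))
    have h2' : i.val < h.val := lt_of_le_of_ne h2 (fun e => hih (Fin.ext e))
    have hhlt := h.isLt
    have c1 : Cut (ind S) g.val := cut_of_missing (by simpa using hgM)
    have c2 : Cut (ind S) (h.val - 1) := cut_of_missing' (g := h) (by simpa using hhM) (by omega)
    have hi' : (Sum.inl i : Vx n p k) ∈ (ind S).verts := hi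
    have h0' : (Sum.inl (0 : Fin (n + 2 * p + 1)) : Vx n p k) ∈ (ind S).verts := h0
    have := conn_inv hS (fun v => g.val < pos v ∧ pos v ≤ h.val - 1)
      (cut_closed (by omega) (by omega) c1 c2) hi' h0' (by simp only [pos]; omega)
    simp only [pos, Fin.val_zero] at this
    omega
  have hg1 : 1 ≤ g.val := by
    by_contra hc
    have : g = 0 := Fin.ext (by simp only [Fin.val_zero]; omega)
    rw [this] at hgM
    exact hgM h0
  refine ⟨g.val, h.val, hgh, h.isLt, ?_, hg1, ?_, h2, ?_⟩
  · by_contra hc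
    have hlt : n + 1 < n + 2 * p + 1 := by
      have := h.isLt
      omega
    have hq := h2 ⟨n + 1, hlt⟩ rfl
    refine hmid ⟨n + 1, hlt⟩ ?_ ?_ hq
    · change g.val ≤ n + 1; omega
    · change n + 1 ≤ h.val; omega
  · intro i
    constructor
    · intro hi
      by_contra hc
      push Not at hc
      exact hmid i hc.1 hc.2 hi
    · rintro (hi | hi)
      · exact hlow i hi
      · exact hhigh i hi
  · intro c hc i hi
    by_contra hcon
    have hno : ∀ j : Fin (n + 2 * p + 1), j.val = n + 1 + p →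
        (Sum.inl j : Vx n p k) ∉ (ind S).verts := by
      intro j hj
      have : j = i := Fin.ext (hj.trans hi.symm)
      rw [this]
      exact hcon
    obtain ⟨c', hc'⟩ := gad_alone hS hno (c := c) hc (v := Sum.inl 0) h0
    simp at hc'

end Pool.Agent.V11232.MS
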