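import Pool.Agent.V11232.MS.Count

/-!
The contribution of the sets containing both star centres.
-/

namespace Pool.Agent.V11232.MS

open SimpleGraph Finset

variable {n q k : ℕ}

/-- The triangle base is outside the gap. -/
abbrev Off (n q g h : ℕ) : Prop := n + 2 + q < g ∨ h < n + 2 + q

theorem good_mk {g h : ℕ} (hg : (g, h) ∈ Gaps n q) {X : Finset (Bool × Fin k)} {Z : Finset Bool}
    (hc : Z = ∅ ∨ Off n q g h) :
    Good ((mk (Ac n (q + 1) g h) X Z : Finset (Vx n (q + 1) k)) : Set (Vx n (q + 1) k)) g h := by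
  rw [mem_Gaps] at hg
  simp only at hg
  refine ⟨hg.1, ?_, ?_, ?_⟩
  · intro i
    rw [Finset.mem_coe, mem_mk_cyc, mem_Ac]
  · intro i hi
    rw [Finset.mem_coe, mem_mk_cyc, mem_Ac]
    omega
  · intro c hcZ i hi
    rw [Finset.mem_coe, mem_mk_gad] at hcZ
    rw [Finset.mem_coe, mem_mk_cyc, mem_Ac]
    rcases hc with rfl | hc
    · simp at hcZ
    · rw [Off] at hc
      omega

theorem good_univ {X : Finset (Bool × Fin k)} {Z : Finset Bool} :
    Good ((mk Finset.univ X Z : Finset (Vx n (q + 1) k)) : Set (Vx n (q + 1) k))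
      (n + 2 * (q + 1) + 1) (n + 2 * (q + 1) + 1) := by
  refine ⟨by omega, ?_, ?_, ?_⟩
  · intro i
    rw [Finset.mem_coe, mem_mk_cyc]
    have := i.isLt
    simp only [Finset.mem_univ, true_iff]
    omega
  · intro i hi
    rw [Finset.mem_coe, mem_mk_cyc]
    exact Finset.mem_univ _
  · intro c hcZ i hi
    rw [Finset.mem_coe, mem_mk_cyc]
    exact Finset.mem_univ _

theorem not_conn_mk {g h : ℕ} (hg : (g, h) ∈ Gaps n q) {X : Finset (Bool × Fin k)}
    {Z : Finset Bool} (hc : ¬ (Z = ∅ ∨ Off n q g h)) :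
    ¬ (ind ((mk (Ac n (q + 1) g h) X Z : Finset (Vx n (q + 1) k)) :
      Set (Vx n (q + 1) k))).Connected := by
  intro hconn
  push Not at hc
  obtain ⟨hZ, hoff⟩ := hc
  rw [mem_Gaps] at hg
  simp only at hg
  obtain ⟨c, hcZ⟩ := hZ
  have h0 : (Sum.inl (0 : Fin (n + 2 * (q + 1) + 1)) : Vx n (q + 1) k) ∈
      (ind ((mk (Ac n (q + 1) g h) X Z : Finset (Vx n (q + 1) k)) :
      Set (Vx n (q + 1) k))).verts := by
    change _ ∈ ((mk (Ac n (q + 1) g h) X Z : Finset (Vx n (q + 1) k)) : Set (Vx n (q + 1) k))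
    rw [Finset.mem_coe, mem_mk_cyc, mem_Ac]
    left
    simp only [Fin.val_zero]
    omega
  have hcV : (gad c : Vx n (q + 1) k) ∈
      (ind ((mk (Ac n (q + 1) g h) X Z : Finset (Vx n (q + 1) k)) :
      Set (Vx n (q + 1) k))).verts := by
    change _ ∈ ((mk (Ac n (q + 1) g h) X Z : Finset (Vx n (q + 1) k)) : Set (Vx n (q + 1) k))
    rw [Finset.mem_coe, mem_mk_gad]
    exact hcZ
  obtain ⟨c', hc'⟩ := gad_alone hconn (by
    intro j hj hjV
    change _ ∈ ((mk (Ac n (q + 1) g h) X Z : Finset (Vx n (q + 1) k)) : Set (Vx n (q + 1) k)) at hjV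
    rw [Finset.mem_coe, mem_mk_cyc, mem_Ac] at hjV
    omega) hcV h0
  simp at hc'

theorem aU_mk {g h : ℕ} (hg : (g, h) ∈ Gaps n q) (X : Finset (Bool × Fin k)) (Z : Finset Bool)
    (hc : Z = ∅ ∨ Off n q g h) : aU (mk (Ac n (q + 1) g h) X Z : Finset (Vx n (q + 1) k)) = 1 := by
  rw [aU, if_pos (good_ind_conn (good_mk hg hc) (by omega))]

theorem aU_mk' {g h : ℕ} (hg : (g, h) ∈ Gaps n q) (X : Finset (Bool × Fin k)) (Z : Finset Bool)
    (hc : ¬ (Z = ∅ ∨ Off n q g h)) :
    aU (mk (Ac n (q + 1) g h) X Z : Finset (Vx n (q + 1) k)) = 0 := by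
  rw [aU, if_neg (not_conn_mk hg hc)]

theorem aW_mk' {g h : ℕ} (hg : (g, h) ∈ Gaps n q) (X : Finset (Bool × Fin k)) (Z : Finset Bool)
    (hc : ¬ (Z = ∅ ∨ Off n q g h)) :
    aW (mk (Ac n (q + 1) g h) X Z : Finset (Vx n (q + 1) k)) = 0 :=
  aW_zero (not_conn_mk hg hc)

theorem gap_missing {g h : ℕ} (hg : (g, h) ∈ Gaps n q) {X : Finset (Bool × Fin k)}
    {Z : Finset Bool} : ∃ i : Fin (n + 2 * (q + 1) + 1), (Sum.inl i : Vx n (q + 1) k) ∉
      ((mk (Ac n (q + 1) g h) X Z : Finset (Vx n (q + 1) k)) : Set (Vx n (q + 1) k)) := by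
  rw [mem_Gaps] at hg
  simp only at hg
  refine ⟨⟨g, by omega⟩, ?_⟩
  rw [Finset.mem_coe, mem_mk_cyc, mem_Ac]
  simp only
  omega

theorem aW_mk_one {g h : ℕ} (hg : (g, h) ∈ Gaps n q) (X : Finset (Bool × Fin k)) (Z : Finset Bool)
    (hc : Z = ∅ ∨ Off n q g h) (hZ : ¬ (false ∈ Z ∧ true ∈ Z)) :
    aW (mk (Ac n (q + 1) g h) X Z : Finset (Vx n (q + 1) k)) = 1 := by
  have hlt : n + 1 + (q + 1) < n + 2 * (q + 1) + 1 := by omega
  obtain ⟨i, hi⟩ := gap_missing (X := X) (Z := Z) hg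
  have h1 := treesOn_le_one (w := ⟨n + 1 + (q + 1), hlt⟩) rfl hi (by
    rw [Finset.mem_coe, mem_mk_gad, Finset.mem_coe, mem_mk_gad]
    exact hZ)
  have h2 := one_le_treesOn (good_ind_conn (good_mk (X := X) hg hc) (by omega))
  rw [aW]
  have : (TreesOn ((mk (Ac n (q + 1) g h) X Z : Finset (Vx n (q + 1) k)) :
      Set (Vx n (q + 1) k))).ncard = 1 := le_antisymm h1 h2
  rw [this]
  rfl

theorem aW_mk_three {g h : ℕ} (hg : (g, h) ∈ Gaps n q) (X : Finset (Bool × Fin k))
    (Z : Finset Bool) (hc : Off n q g h) (hZ : false ∈ Z ∧ true ∈ Z) :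
    aW (mk (Ac n (q + 1) g h) X Z : Finset (Vx n (q + 1) k)) = 3 := by
  have hlt : n + 1 + (q + 1) < n + 2 * (q + 1) + 1 := by omega
  obtain ⟨i, hi⟩ := gap_missing (X := X) (Z := Z) hg
  have hgood := good_mk (X := X) (Z := Z) hg (Or.inr hc)
  have ha : (gad false : Vx n (q + 1) k) ∈
      ((mk (Ac n (q + 1) g h) X Z : Finset (Vx n (q + 1) k)) : Set (Vx n (q + 1) k)) := by
    rw [Finset.mem_coe, mem_mk_gad]; exact hZ.1
  have hb : (gad true : Vx n (q + 1) k) ∈
      ((mk (Ac n (q + 1) g h) X Z : Finset (Vx n (q + 1) k)) : Set (Vx n (q + 1) k)) := by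
    rw [Finset.mem_coe, mem_mk_gad]; exact hZ.2
  have h1 := treesOn_le_three (w := ⟨n + 1 + (q + 1), hlt⟩) rfl hi
    (hgood.base false ha _ rfl) ha hb
  have h2 := three_le_treesOn hgood (by omega) ha hb
  rw [aW]
  have : (TreesOn ((mk (Ac n (q + 1) g h) X Z : Finset (Vx n (q + 1) k)) :
      Set (Vx n (q + 1) k))).ncard = 3 := le_antisymm h1 h2
  rw [this]
  rfl

/-- Contribution of a cycle part. -/
noncomputable def Phi (a : Finset (Vx n (q + 1) k) → ℤ) (m : ℤ)
    (A : Finset (Fin (n + 2 * (q + 1) + 1))) : ℤ :=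
  ∑ X : Finset (Bool × Fin k), ∑ Z : Finset Bool, a (mk A X Z) * (((mk A X Z).card : ℤ) - m)

theorem Phi_U {g h : ℕ} (hg : (g, h) ∈ Gaps n q) (m d : ℤ)
    (hd : d = (n + 2 * q + 3) + k - m) :
    Phi (aU (n := n) (p := q + 1) (k := k)) m (Ac n (q + 1) g h) = 4 ^ k *
      (if Off n q g h then (4 * d + 4) + (-4) * ((h : ℤ) - g + 1)
        else d + (-1) * ((h : ℤ) - g + 1)) := by
  have hgg := hg
  rw [mem_Gaps] at hgg
  simp only at hgg
  have hcard := card_Ac (n := n) (p := q + 1) hgg.2.1 (by omega)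
  push_cast at hcard
  split_ifs with hoff
  · have : ∀ X : Finset (Bool × Fin k), ∑ Z : Finset Bool,
        aU (mk (Ac n (q + 1) g h) X Z) * (((mk (Ac n (q + 1) g h) X Z).card : ℤ) - m) =
        (4 * ((Ac n (q + 1) g h).card : ℤ) - 4 * m + 4) + 4 * (X.card : ℤ) := by
      intro X
      rw [sum_gads]
      rw [aU_mk hg X _ (Or.inr hoff), aU_mk hg X _ (Or.inr hoff), aU_mk hg X _ (Or.inr hoff),
        aU_mk hg X _ (Or.inr hoff)]
      simp only [card_mk, Finset.card_empty, Finset.card_singleton]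
      have : ({false, true} : Finset Bool).card = 2 := by decide
      rw [this]
      push_cast
      ring
    rw [Phi, Finset.sum_congr rfl (fun X _ => this X), sum_leaves, hcard, hd]
    ring
  · have : ∀ X : Finset (Bool × Fin k), ∑ Z : Finset Bool,
        aU (mk (Ac n (q + 1) g h) X Z) * (((mk (Ac n (q + 1) g h) X Z).card : ℤ) - m) =
        (((Ac n (q + 1) g h).card : ℤ) - m) + 1 * (X.card : ℤ) := by
      intro X
      rw [sum_gads]
      rw [aU_mk hg X _ (Or.inl rfl), aU_mk' hg X {false} (by simp [hoff]),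
        aU_mk' hg X {true} (by simp [hoff]), aU_mk' hg X {false, true} (by simp [hoff])]
      simp only [card_mk, Finset.card_empty]
      push_cast
      ring
    rw [Phi, Finset.sum_congr rfl (fun X _ => this X), sum_leaves, hcard, hd]
    ring

theorem Phi_W {g h : ℕ} (hg : (g, h) ∈ Gaps n q) (m d : ℤ)
    (hd : d = (n + 2 * q + 3) + k - m) :
    Phi (aW (n := n) (p := q + 1) (k := k)) m (Ac n (q + 1) g h) = 4 ^ k *
      (if Off n q g h then (6 * d + 8) + (-6) * ((h : ℤ) - g + 1)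
        else d + (-1) * ((h : ℤ) - g + 1)) := by
  have hgg := hg
  rw [mem_Gaps] at hgg
  simp only at hgg
  have hcard := card_Ac (n := n) (p := q + 1) hgg.2.1 (by omega)
  push_cast at hcard
  split_ifs with hoff
  · have : ∀ X : Finset (Bool × Fin k), ∑ Z : Finset Bool,
        aW (mk (Ac n (q + 1) g h) X Z) * (((mk (Ac n (q + 1) g h) X Z).card : ℤ) - m) =
        (6 * ((Ac n (q + 1) g h).card : ℤ) - 6 * m + 8) + 6 * (X.card : ℤ) := by
      intro X
      rw [sum_gads]
      rw [aW_mk_one hg X _ (Or.inr hoff) (by simp), aW_mk_one hg X _ (Or.inr hoff) (by simp),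
        aW_mk_one hg X _ (Or.inr hoff) (by simp), aW_mk_three hg X _ hoff (by simp)]
      simp only [card_mk, Finset.card_empty, Finset.card_singleton]
      have : ({false, true} : Finset Bool).card = 2 := by decide
      rw [this]
      push_cast
      ring
    rw [Phi, Finset.sum_congr rfl (fun X _ => this X), sum_leaves, hcard, hd]
    ring
  · have : ∀ X : Finset (Bool × Fin k), ∑ Z : Finset Bool,
        aW (mk (Ac n (q + 1) g h) X Z) * (((mk (Ac n (q + 1) g h) X Z).card : ℤ) - m) =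
        (((Ac n (q + 1) g h).card : ℤ) - m) + 1 * (X.card : ℤ) := by
      intro X
      rw [sum_gads]
      rw [aW_mk_one hg X _ (Or.inl rfl) (by simp), aW_mk' hg X {false} (by simp [hoff]),
        aW_mk' hg X {true} (by simp [hoff]), aW_mk' hg X {false, true} (by simp [hoff])]
      simp only [card_mk, Finset.card_empty]
      push_cast
      ring
    rw [Phi, Finset.sum_congr rfl (fun X _ => this X), sum_leaves, hcard, hd]
    ring

theorem Phi_U_univ (m d : ℤ) (hd : d = (n + 2 * q + 3) + k - m) :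
    Phi (aU (n := n) (p := q + 1) (k := k)) m Finset.univ = 4 ^ k * (4 * d + 4) := by
  have haU : ∀ (X : Finset (Bool × Fin k)) (Z : Finset Bool),
      aU (mk Finset.univ X Z : Finset (Vx n (q + 1) k)) = 1 := by
    intro X Z
    rw [aU, if_pos (good_ind_conn good_univ (by omega))]
  have : ∀ X : Finset (Bool × Fin k), ∑ Z : Finset Bool,
      aU (mk Finset.univ X Z : Finset (Vx n (q + 1) k)) *
        (((mk Finset.univ X Z : Finset (Vx n (q + 1) k)).card : ℤ) - m) =
      (4 * ((n : ℤ) + 2 * q + 3) - 4 * m + 4) + 4 * (X.card : ℤ) := by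
    intro X
    rw [sum_gads]
    rw [haU, haU, haU, haU]
    simp only [card_mk, Finset.card_empty, Finset.card_singleton, Finset.card_univ,
      Fintype.card_fin]
    have : ({false, true} : Finset Bool).card = 2 := by decide
    rw [this]
    push_cast
    ring
  rw [Phi, Finset.sum_congr rfl (fun X _ => this X), sum_leaves, hd]
  ring

theorem card_le_all (S : Finset (Vx n (q + 1) k)) :
    (S.card : ℤ) ≤ (n + 2 * q + 3) + 2 * k + 2 := by
  have h1 := Finset.card_le_univ S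
  have h2 : Fintype.card (Vx n (q + 1) k) = (n + 2 * (q + 1) + 1) + (2 * k + 2) := by
    simp
  rw [h2] at h1
  have : (S.card : ℤ) ≤ ((n + 2 * (q + 1) + 1) + (2 * k + 2) : ℕ) := by exact_mod_cast h1
  push_cast at this
  linarith

theorem Phi_W_univ (m : ℤ) (hm : 0 ≤ m) :
    Phi (aW (n := n) (p := q + 1) (k := k)) m Finset.univ ≤
      4 ^ k * (4 * (8 * (n + 2 * q + 4) * ((n + 2 * q + 3) + 2 * k + 2))) := by
  have hlt : n + 1 + (q + 1) < n + 2 * (q + 1) + 1 := by omega
  have hterm : ∀ (X : Finset (Bool × Fin k)) (Z : Finset Bool),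
      aW (mk Finset.univ X Z : Finset (Vx n (q + 1) k)) *
        (((mk Finset.univ X Z : Finset (Vx n (q + 1) k)).card : ℤ) - m) ≤
      8 * (n + 2 * q + 4) * ((n + 2 * q + 3) + 2 * k + 2) := by
    intro X Z
    have h1 : aW (mk Finset.univ X Z : Finset (Vx n (q + 1) k)) ≤ 8 * (n + 2 * q + 4) := by
      have := treesOn_le_full (w := ⟨n + 1 + (q + 1), hlt⟩)
        (S := ((mk Finset.univ X Z : Finset (Vx n (q + 1) k)) : Set (Vx n (q + 1) k))) rfl (by
          intro i
          rw [Finset.mem_coe, mem_mk_cyc]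
          exact Finset.mem_univ _)
      rw [aW]
      have h2 : ((TreesOn ((mk Finset.univ X Z : Finset (Vx n (q + 1) k)) :
        Set (Vx n (q + 1) k))).ncard : ℤ) ≤ ((8 * (n + 2 * (q + 1) + 2) : ℕ) : ℤ) := by
        exact_mod_cast this
      push_cast at h2
      linarith
    have h2 := card_le_all (mk Finset.univ X Z : Finset (Vx n (q + 1) k))
    have h0 := aW_nonneg (mk Finset.univ X Z : Finset (Vx n (q + 1) k))
    have h3 : ((mk Finset.univ X Z : Finset (Vx n (q + 1) k)).card : ℤ) - m ≤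
        (n + 2 * q + 3) + 2 * k + 2 := by linarith
    calc aW (mk Finset.univ X Z : Finset (Vx n (q + 1) k)) *
        (((mk Finset.univ X Z : Finset (Vx n (q + 1) k)).card : ℤ) - m)
        ≤ aW (mk Finset.univ X Z : Finset (Vx n (q + 1) k)) *
          ((n + 2 * q + 3) + 2 * k + 2) := mul_le_mul_of_nonneg_left h3 h0
      _ ≤ 8 * (n + 2 * q + 4) * ((n + 2 * q + 3) + 2 * k + 2) :=
          mul_le_mul_of_nonneg_right h1 (by positivity)
  rw [Phi]
  have hsum : ∀ X : Finset (Bool × Fin k), ∑ Z : Finset Bool,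
      aW (mk Finset.univ X Z : Finset (Vx n (q + 1) k)) *
        (((mk Finset.univ X Z : Finset (Vx n (q + 1) k)).card : ℤ) - m) ≤
      (4 * (8 * (n + 2 * q + 4) * ((n + 2 * q + 3) + 2 * k + 2))) + 0 * (X.card : ℤ) := by
    intro X
    rw [sum_gads]
    have e1 := hterm X ∅
    have e2 := hterm X {false}
    have e3 := hterm X {true}
    have e4 := hterm X {false, true}
    linarith
  refine (Finset.sum_le_sum (fun X _ => hsum X)).trans (le_of_eq ?_)
  rw [sum_leaves]
  ring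

end Pool.Agent.V11232.MS
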