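import Pool.Agent.V11232.MS.Graph

/-!
Counting the subtrees of `Gr n p k` with a prescribed vertex set.
-/

namespace Pool.Agent.V11232.MS

open SimpleGraph

variable {n p k : ℕ}

/-- A triangle vertex. -/
abbrev gad (b : Bool) : Vx n p k := Sum.inr (Sum.inr b)

/-- A triangle vertex has an edge unless it is alone. -/
theorem gad_edge {H : (Gr n p k).Subgraph} (hH : H.Connected) {w : Fin (n + 2 * p + 1)}
    (hw : w.val = n + 1 + p) {c : Bool} (hc : (gad c : Vx n p k) ∈ H.verts) {v : Vx n p k}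
    (hv : v ∈ H.verts) (hne : v ≠ gad c) :
    H.Adj (Sum.inl w) (gad c) ∨ H.Adj (gad c) (gad (!c)) := by
  by_contra hcon
  push Not at hcon
  refine hne (conn_inv hH (fun v => v = (gad c : Vx n p k)) ?_ hc hv rfl)
  rintro u v huv rfl
  rcases adj_gad huv.adj_sub with ⟨i, rfl, hi⟩ | rfl
  · have : i = w := Fin.ext (hi.trans hw.symm)
    subst this
    exact (hcon.1 huv.symm).elim
  · exact (hcon.2 huv).elim

theorem gad_base {H : (Gr n p k).Subgraph} (hH : H.Connected) {w : Fin (n + 2 * p + 1)}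
    (hw : w.val = n + 1 + p) {c : Bool} (hc : (gad c : Vx n p k) ∈ H.verts)
    (hwH : (Sum.inl w : Vx n p k) ∈ H.verts) :
    H.Adj (Sum.inl w) (gad false) ∨ H.Adj (Sum.inl w) (gad true) := by
  by_contra hcon
  push Not at hcon
  have := conn_inv hH (fun v => ∃ c : Bool, v = (gad c : Vx n p k)) (by
    rintro u v huv ⟨c, rfl⟩
    rcases adj_gad huv.adj_sub with ⟨i, rfl, hi⟩ | rfl
    · have : i = w := Fin.ext (hi.trans hw.symm)
      subst this
      rcases c with _ | _
      · exact (hcon.1 huv.symm).elim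
      · exact (hcon.2 huv.symm).elim
    · exact ⟨_, rfl⟩) hc hwH ⟨c, rfl⟩
  simp at this

/-- If the base of the triangle is absent then a subgraph with a triangle vertex has no cycle
vertex. -/
theorem gad_alone {H : (Gr n p k).Subgraph} (hH : H.Connected)
    (hno : ∀ i : Fin (n + 2 * p + 1), i.val = n + 1 + p → (Sum.inl i : Vx n p k) ∉ H.verts)
    {c : Bool} (hc : (gad c : Vx n p k) ∈ H.verts) {v : Vx n p k} (hv : v ∈ H.verts) :
    ∃ c : Bool, v = (gad c : Vx n p k) := by
  refine conn_inv hH (fun v => ∃ c : Bool, v = (gad c : Vx n p k)) ?_ hc hv ⟨c, rfl⟩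
  rintro u v huv ⟨c, rfl⟩
  rcases adj_gad huv.adj_sub with ⟨i, rfl, hi⟩ | rfl
  · exact (hno i hi (H.edge_vert huv.symm)).elim
  · exact ⟨_, rfl⟩

/-- A tree does not contain the whole triangle. -/
theorem no_triangle {H : (Gr n p k).Subgraph} (hH : H.coe.IsTree) {w : Fin (n + 2 * p + 1)}
    (h1 : H.Adj (Sum.inl w) (gad false)) (h2 : H.Adj (Sum.inl w) (gad true)) :
    ¬ H.Adj (gad false) (gad true) := by
  intro h3
  have hac := hH.isAcyclic
  rw [isAcyclic_iff_forall_adj_isBridge] at hac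
  have hw : (Sum.inl w : Vx n p k) ∈ H.verts := H.edge_vert h1
  have ha : (gad false : Vx n p k) ∈ H.verts := H.edge_vert h1.symm
  have hb : (gad true : Vx n p k) ∈ H.verts := H.edge_vert h2.symm
  have h3' : H.coe.Adj ⟨gad false, ha⟩ ⟨gad true, hb⟩ := h3
  have hbr := hac h3'
  rw [isBridge_iff] at hbr
  apply hbr
  have e1 : (H.coe.deleteEdges {s(⟨gad false, ha⟩, ⟨gad true, hb⟩)}).Adj ⟨gad false, ha⟩
      ⟨Sum.inl w, hw⟩ := by
    rw [deleteEdges_adj]
    refine ⟨h1.symm, ?_⟩
    simp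
  have e2 : (H.coe.deleteEdges {s(⟨gad false, ha⟩, ⟨gad true, hb⟩)}).Adj ⟨Sum.inl w, hw⟩
      ⟨gad true, hb⟩ := by
    rw [deleteEdges_adj]
    refine ⟨h2, ?_⟩
    simp
  exact e1.reachable.trans e2.reachable

/-- Comparison of adjacency in two subgraphs with the same vertices. -/
theorem adj_mono {H₁ H₂ : (Gr n p k).Subgraph} (hV : H₁.verts = H₂.verts) (h2 : H₂.Connected)
    {w : Fin (n + 2 * p + 1)} (hw : w.val = n + 1 + p)
    (hcyc : ∀ i j : Fin (n + 2 * p + 1), (i.val + 1 = j.val ∨ (i.val = n + 2 * p ∧ j.val = 0)) →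
      H₁.Adj (Sum.inl i) (Sum.inl j) → H₂.Adj (Sum.inl i) (Sum.inl j))
    (ht1 : ∀ c, H₁.Adj (Sum.inl w) (gad c) → H₂.Adj (Sum.inl w) (gad c))
    (ht2 : H₁.Adj (gad false) (gad true) → H₂.Adj (gad false) (gad true))
    (u v : Vx n p k) (h : H₁.Adj u v) : H₂.Adj u v := by
  have hu : u ∈ H₂.verts := hV ▸ H₁.edge_vert h
  have hv : v ∈ H₂.verts := hV ▸ H₁.edge_vert h.symm
  rcases u with i | x | b
  · rcases v with j | y | c
    · rcases adj_cyc h.adj_sub with h' | h' | h' | h'
      · exact hcyc i j (Or.inl h') h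
      · exact (hcyc j i (Or.inl h') h.symm).symm
      · exact hcyc i j (Or.inr h') h
      · exact (hcyc j i (Or.inr h') h.symm).symm
    · obtain ⟨i', hi', hi''⟩ := adj_leaf h.symm.adj_sub
      have : i = i' := by simpa using hi'
      subst this
      exact (forced_leaf h2 hi'' hu hv).symm
    · rcases adj_gad h.symm.adj_sub with ⟨i', hi', hi''⟩ | h'
      · have h3 : i = i' := by simpa using hi'
        subst h3
        have h4 : i = w := Fin.ext (hi''.trans hw.symm)
        subst h4
        exact ht1 c h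
      · simp at h'
  · obtain ⟨i', rfl, hi''⟩ := adj_leaf h.adj_sub
    exact forced_leaf h2 hi'' hv hu
  · rcases adj_gad h.adj_sub with ⟨i', rfl, hi''⟩ | rfl
    · have h4 : i' = w := Fin.ext (hi''.trans hw.symm)
      subst h4
      exact (ht1 b h.symm).symm
    · rcases b with _ | _
      · exact ht2 h
      · exact (ht2 h.symm).symm

/-- The subtrees with vertex set `S`. -/
def TreesOn (S : Set (Vx n p k)) : Set (Gr n p k).Subgraph := {H | H.coe.IsTree ∧ H.verts = S}

theorem conn_of_tree {V : Type*} {G : SimpleGraph V} {H : G.Subgraph} (h : H.coe.IsTree) :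
    H.Connected := ⟨h.connected⟩

open Classical in
/-- The triangle code of a subgraph. -/
noncomputable def tcode (w : Fin (n + 2 * p + 1)) (H : (Gr n p k).Subgraph) :
    Bool × Bool × Bool :=
  (decide (H.Adj (Sum.inl w) (gad false)), decide (H.Adj (Sum.inl w) (gad true)),
    decide (H.Adj (gad false) (gad true)))

theorem tcode_eq {w : Fin (n + 2 * p + 1)} {H₁ H₂ : (Gr n p k).Subgraph}
    (h : tcode w H₁ = tcode w H₂) :
    (∀ c, H₁.Adj (Sum.inl w) (gad c) ↔ H₂.Adj (Sum.inl w) (gad c)) ∧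
      (H₁.Adj (gad false) (gad true) ↔ H₂.Adj (gad false) (gad true)) := by
  simp only [tcode, Prod.mk.injEq, decide_eq_decide] at h
  refine ⟨fun c => ?_, h.2.2⟩
  rcases c with _ | _
  · exact h.1
  · exact h.2.1

/-- Two subtrees on the same vertex set missing a cycle vertex agree if their codes agree. -/
theorem eq_of_tcode {S : Set (Vx n p k)} {w : Fin (n + 2 * p + 1)} (hw : w.val = n + 1 + p)
    {g : Fin (n + 2 * p + 1)} (hg : (Sum.inl g : Vx n p k) ∉ S) {H₁ H₂ : (Gr n p k).Subgraph}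
    (h1 : H₁ ∈ TreesOn S) (h2 : H₂ ∈ TreesOn S) (h : tcode w H₁ = tcode w H₂) : H₁ = H₂ := by
  obtain ⟨ht1, ht2⟩ := tcode_eq h
  have hc1 := conn_of_tree h1.1
  have hc2 := conn_of_tree h2.1
  have hV : H₁.verts = H₂.verts := h1.2.trans h2.2.symm
  apply Subgraph.ext hV
  funext u v
  apply propext
  constructor
  · refine adj_mono hV hc2 hw ?_ (fun c => (ht1 c).1) ht2.1 u v
    intro i j hij hadj
    exact forced_cyc hc2 (by rw [h2.2]; exact hg) (hV ▸ H₁.edge_vert hadj)
      (hV ▸ H₁.edge_vert hadj.symm) hij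
  · refine adj_mono hV.symm hc1 hw ?_ (fun c => (ht1 c).2) ht2.2 u v
    intro i j hij hadj
    exact forced_cyc hc1 (by rw [h1.2]; exact hg) (hV.symm ▸ H₂.edge_vert hadj)
      (hV.symm ▸ H₂.edge_vert hadj.symm) hij

theorem treesOn_le_eight {S : Set (Vx n p k)} {w : Fin (n + 2 * p + 1)} (hw : w.val = n + 1 + p)
    {g : Fin (n + 2 * p + 1)} (hg : (Sum.inl g : Vx n p k) ∉ S) : (TreesOn S).ncard ≤ 8 := by
  have h1 := Set.ncard_le_ncard_of_injOn (s := TreesOn S) (t := Set.univ) (tcode w)
    (fun _ _ => Set.mem_univ _) (fun H₁ h1 H₂ h2 h => eq_of_tcode hw hg h1 h2 h) (Set.toFinite _)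
  refine h1.trans ?_
  rw [Set.ncard_univ, Nat.card_eq_fintype_card]
  decide

/-- The three codes of a tree containing all triangle vertices. -/
def codes3 : Set (Bool × Bool × Bool) := {(true, true, false), (true, false, true),
  (false, true, true)}

theorem codes3_ncard : codes3.ncard = 3 := by
  rw [codes3, Set.ncard_eq_toFinset_card']
  decide

theorem tcode_mem {S : Set (Vx n p k)} {w : Fin (n + 2 * p + 1)} (hw : w.val = n + 1 + p)
    (hwS : (Sum.inl w : Vx n p k) ∈ S) (ha : (gad false : Vx n p k) ∈ S)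
    (hb : (gad true : Vx n p k) ∈ S) {H : (Gr n p k).Subgraph} (h : H ∈ TreesOn S) :
    tcode w H ∈ codes3 := by
  have hc := conn_of_tree h.1
  rw [← h.2] at hwS ha hb
  have e1 := gad_edge hc hw ha hwS (by simp)
  have e2 := gad_edge hc hw hb hwS (by simp)
  have e3 := gad_base hc hw ha hwS
  have e4 := no_triangle h.1 (w := w)
  simp only [Bool.not_false, Bool.not_true] at e1 e2
  have e2' : H.Adj (Sum.inl w) (gad true) ∨ H.Adj (gad false) (gad true) := by
    rcases e2 with h | h
    · exact Or.inl h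
    · exact Or.inr h.symm
  simp only [tcode, codes3, Set.mem_insert_iff, Set.mem_singleton_iff, Prod.mk.injEq,
    decide_eq_true_eq, decide_eq_false_iff_not]
  by_cases q1 : H.Adj (Sum.inl w) (gad false) <;> by_cases q2 : H.Adj (Sum.inl w) (gad true) <;>
    by_cases q3 : H.Adj (gad false) (gad true) <;> simp_all

theorem treesOn_le_three {S : Set (Vx n p k)} {w : Fin (n + 2 * p + 1)} (hw : w.val = n + 1 + p)
    {g : Fin (n + 2 * p + 1)} (hg : (Sum.inl g : Vx n p k) ∉ S)
    (hwS : (Sum.inl w : Vx n p k) ∈ S) (ha : (gad false : Vx n p k) ∈ S)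
    (hb : (gad true : Vx n p k) ∈ S) : (TreesOn S).ncard ≤ 3 := by
  rw [← codes3_ncard]
  exact Set.ncard_le_ncard_of_injOn (tcode w) (fun H hH => tcode_mem hw hwS ha hb hH)
    (fun H₁ h1 H₂ h2 h => eq_of_tcode hw hg h1 h2 h) (Set.toFinite _)

theorem treesOn_le_one {S : Set (Vx n p k)} {w : Fin (n + 2 * p + 1)} (hw : w.val = n + 1 + p)
    {g : Fin (n + 2 * p + 1)} (hg : (Sum.inl g : Vx n p k) ∉ S)
    (hno : ¬ ((gad false : Vx n p k) ∈ S ∧ (gad true : Vx n p k) ∈ S)) :
    (TreesOn S).ncard ≤ 1 := by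
  rw [Set.ncard_le_one (Set.toFinite _)]
  intro H₁ h1 H₂ h2
  apply eq_of_tcode hw hg h1 h2
  have key : ∀ H : (Gr n p k).Subgraph, H ∈ TreesOn S →
      ((∀ c, H.Adj (Sum.inl w) (gad c) ↔ ((gad c : Vx n p k) ∈ S ∧ (Sum.inl w : Vx n p k) ∈ S)) ∧
        ¬ H.Adj (gad false) (gad true)) := by
    intro H hH
    have hc := conn_of_tree hH.1
    refine ⟨fun c => ⟨fun h => ?_, fun h => ?_⟩, fun h => ?_⟩
    · rw [← hH.2]
      exact ⟨H.edge_vert h.symm, H.edge_vert h⟩
    · rw [← hH.2] at h
      rcases gad_edge hc hw h.1 h.2 (by simp) with h' | h'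
      · exact h'
      · exfalso
        apply hno
        rw [← hH.2]
        have q1 := H.edge_vert h'
        have q2 := H.edge_vert h'.symm
        rcases c with _ | _
        · exact ⟨q1, q2⟩
        · exact ⟨q2, q1⟩
    · apply hno
      rw [← hH.2]
      exact ⟨H.edge_vert h, H.edge_vert h.symm⟩
  obtain ⟨k1, k1'⟩ := key H₁ h1
  obtain ⟨k2, k2'⟩ := key H₂ h2
  simp only [tcode, Prod.mk.injEq, decide_eq_decide]
  exact ⟨(k1 false).trans (k2 false).symm, (k1 true).trans (k2 true).symm, by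
    constructor
    · intro h; exact (k1' h).elim
    · intro h; exact (k2' h).elim⟩

open Classical in
/-- The position of a missing cycle edge. -/
noncomputable def missing (H : (Gr n p k).Subgraph) : Option (Fin (n + 2 * p + 1)) :=
  if h : ∃ x : Fin (n + 2 * p + 1), Cut H x.val then some h.choose else none

theorem cut_unique {H : (Gr n p k).Subgraph} (hH : H.Connected)
    (hall : ∀ i : Fin (n + 2 * p + 1), (Sum.inl i : Vx n p k) ∈ H.verts)
    {x y : Fin (n + 2 * p + 1)} (hx : Cut H x.val) (hy : Cut H y.val) : x = y := by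
  by_contra hne
  have key : ∀ {x y : Fin (n + 2 * p + 1)}, Cut H x.val → Cut H y.val → x.val < y.val → False := by
    intro x y hx hy hlt
    have hylt := y.isLt
    have := conn_inv hH (fun v => x.val < pos v ∧ pos v ≤ y.val)
      (cut_closed hlt (by omega) hx hy) (hall y) (hall x) (by simp only [pos]; omega)
    simp only [pos] at this
    omega
  have hne' : x.val ≠ y.val := fun h => hne (Fin.ext h)
  rcases Nat.lt_or_gt_of_ne hne' with h | h
  · exact key hx hy h
  · exact key hy hx h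

theorem cut_iff_missing {H : (Gr n p k).Subgraph} (hH : H.Connected)
    (hall : ∀ i : Fin (n + 2 * p + 1), (Sum.inl i : Vx n p k) ∈ H.verts)
    (x : Fin (n + 2 * p + 1)) : Cut H x.val ↔ missing H = some x := by
  constructor
  · intro hx
    have hex : ∃ x : Fin (n + 2 * p + 1), Cut H x.val := ⟨x, hx⟩
    rw [missing, dif_pos hex]
    rw [cut_unique hH hall hex.choose_spec hx]
  · intro h
    rw [missing] at h
    split_ifs at h with hex
    · rw [← Option.some.inj h]
      exact hex.choose_spec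

theorem adj_iff_not_cut {H : (Gr n p k).Subgraph} {i j : Fin (n + 2 * p + 1)}
    (hij : i.val + 1 = j.val ∨ (i.val = n + 2 * p ∧ j.val = 0)) :
    H.Adj (Sum.inl i) (Sum.inl j) ↔ ¬ Cut H i.val := by
  constructor
  · intro h hc
    exact hc i j rfl hij h
  · intro h
    by_contra hna
    apply h
    intro i' j' hi' hj' hadj
    have h1 : i' = i := Fin.ext hi'
    subst h1
    have h2 : j' = j := by
      apply Fin.ext
      have := j'.isLt
      have := j.isLt
      omega
    subst h2
    exact hna hadj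

theorem treesOn_le_full {S : Set (Vx n p k)} {w : Fin (n + 2 * p + 1)} (hw : w.val = n + 1 + p)
    (hall : ∀ i : Fin (n + 2 * p + 1), (Sum.inl i : Vx n p k) ∈ S) :
    (TreesOn S).ncard ≤ 8 * (n + 2 * p + 2) := by
  have h1 := Set.ncard_le_ncard_of_injOn (s := TreesOn S) (t := Set.univ)
    (fun H => (tcode w H, missing H))
    (fun _ _ => Set.mem_univ _) (by
      intro H₁ h1 H₂ h2 h
      simp only [Prod.mk.injEq] at h
      obtain ⟨ha, hb⟩ := h
      obtain ⟨ht1, ht2⟩ := tcode_eq ha
      have hc1 := conn_of_tree h1.1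
      have hc2 := conn_of_tree h2.1
      have hV : H₁.verts = H₂.verts := h1.2.trans h2.2.symm
      have hall1 : ∀ i : Fin (n + 2 * p + 1), (Sum.inl i : Vx n p k) ∈ H₁.verts := by
        rw [h1.2]; exact hall
      have hall2 : ∀ i : Fin (n + 2 * p + 1), (Sum.inl i : Vx n p k) ∈ H₂.verts := by
        rw [h2.2]; exact hall
      have hcut : ∀ i : Fin (n + 2 * p + 1), Cut H₁ i.val ↔ Cut H₂ i.val := by
        intro i
        rw [cut_iff_missing hc1 hall1, cut_iff_missing hc2 hall2, hb]
      apply Subgraph.ext hV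
      funext u v
      apply propext
      constructor
      · refine adj_mono hV hc2 hw ?_ (fun c => (ht1 c).1) ht2.1 u v
        intro i j hij hadj
        rw [adj_iff_not_cut hij] at hadj ⊢
        rwa [← hcut]
      · refine adj_mono hV.symm hc1 hw ?_ (fun c => (ht1 c).2) ht2.2 u v
        intro i j hij hadj
        rw [adj_iff_not_cut hij] at hadj ⊢
        rwa [hcut]) (Set.toFinite _)
  refine h1.trans (le_of_eq ?_)
  rw [Set.ncard_univ, Nat.card_eq_fintype_card]
  simp only [Fintype.card_prod, Fintype.card_bool, Fintype.card_option, Fintype.card_fin]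

/-- Every connected subgraph has a spanning tree. -/
theorem exists_tree {V : Type*} [Finite V] {G : SimpleGraph V} (K : G.Subgraph)
    (hK : K.Connected) :
    ∃ H : G.Subgraph, H.coe.IsTree ∧ H.verts = K.verts ∧ ∀ u v, H.Adj u v → K.Adj u v := by
  obtain ⟨T, hT, hTt⟩ := hK.coe.exists_isTree_le
  let H : G.Subgraph :=
    { verts := K.verts
      Adj := fun u v => ∃ (hu : u ∈ K.verts) (hv : v ∈ K.verts), T.Adj ⟨u, hu⟩ ⟨v, hv⟩
      adj_sub := by
        rintro u v ⟨hu, hv, h⟩
        exact (hT h).adj_sub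
      edge_vert := by
        rintro u v ⟨hu, -⟩
        exact hu
      symm := ⟨by
        rintro u v ⟨hu, hv, h⟩
        exact ⟨hv, hu, h.symm⟩⟩ }
  refine ⟨H, ?_, rfl, ?_⟩
  · have : H.coe = T := by
      ext ⟨u, hu⟩ ⟨v, hv⟩
      constructor
      · rintro ⟨_, _, h⟩
        exact h
      · intro h
        exact ⟨hu, hv, h⟩
    rw [this]
    exact hTt
  · rintro u v ⟨hu, hv, h⟩
    exact hT h

end Pool.Agent.V11232.MS
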